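import Pool.Agent.J4.H88.MZ.Main

/-!
# Algebraic coefficients
-/

set_option autoImplicit false

namespace Pool.Agent.J4.H88.MZ

open Pool.Agent.J4.H42.MZ Module Filter Topology

variable {Z : ℕ → Submodule ℚ ℝ} {ψ : HH →ₗ[ℚ] ℝ}

/-- the derivation `∂ / ∂ π²` -/
noncomputable def dz : HH →ₗ[ℚ] HH :=
  Finsupp.linearCombination ℚ fun p : ℕ × List ℕ => (p.1 : ℚ) • Finsupp.single (p.1 - 1, p.2) (1 : ℚ)

lemma dz_single (p : ℕ × List ℕ) : dz (Finsupp.single p 1) =
    (p.1 : ℚ) • Finsupp.single (p.1 - 1, p.2) (1 : ℚ) := by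
  unfold dz
  rw [Finsupp.linearCombination_single, one_smul]

lemma dz_apply (f : HH) (m : ℕ) (w : List ℕ) : dz f (m, w) = ((m + 1 : ℕ) : ℚ) * f (m + 1, w) := by
  have h : (Finsupp.lapply (m, w) : HH →ₗ[ℚ] ℚ).comp dz =
      ((m + 1 : ℕ) : ℚ) • Finsupp.lapply (m + 1, w) := by
    refine Finsupp.lhom_ext' fun p => LinearMap.ext_ring ?_
    change dz (Finsupp.single p 1) (m, w) = ((m + 1 : ℕ) : ℚ) * Finsupp.single p (1 : ℚ) (m + 1, w)
    rw [dz_single, Finsupp.smul_apply, smul_eq_mul]
    obtain ⟨n, v⟩ := p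
    simp only
    cases n with
    | zero =>
      have h0 : ((0, v) : ℕ × List ℕ) ≠ (m + 1, w) := by simp
      rw [Finsupp.single_apply, Finsupp.single_apply, if_neg h0]
      simp
    | succ n =>
      rw [Nat.add_sub_cancel, Finsupp.single_apply, Finsupp.single_apply]
      by_cases h : n = m ∧ v = w
      · obtain ⟨rfl, rfl⟩ := h
        simp
      · rw [if_neg, if_neg]
        · simp
        · intro heq
          simp only [Prod.mk.injEq, add_left_inj] at heq
          exact h heq
        · intro heq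
          simp only [Prod.mk.injEq] at heq
          exact h heq
  exact congrArg (fun L : HH →ₗ[ℚ] ℚ => L f) h

lemma dz_mul (f g : HH) : dz (mulH f g) = mulH (dz f) g + mulH f (dz g) := by
  have h : mulB.compr₂ dz = mulB.compl₁₂ dz LinearMap.id + mulB.compl₁₂ LinearMap.id dz := by
    refine bil_ext fun p q => ?_
    change dz (mulH _ _) = mulH (dz _) (LinearMap.id _) + mulH (LinearMap.id _) (dz _)
    simp only [LinearMap.id_coe, id_eq]
    rw [single_mul]
    change dz (SL (shuf p.2 q.2) fun w => Finsupp.single (p.1 + q.1, w) (1 : ℚ)) = _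
    rw [map_SL]
    obtain ⟨m, x⟩ := p
    obtain ⟨n, y⟩ := q
    simp only [dz_single, mulH_smul_left, mulH_smul_right]
    have e1 : ∀ k : ℕ, (SL (shuf x y) fun w => ((m + n : ℕ) : ℚ) •
        Finsupp.single ((k, w) : ℕ × List ℕ) (1 : ℚ)) = ((m + n : ℕ) : ℚ) •
        SL (shuf x y) fun w => Finsupp.single ((k, w) : ℕ × List ℕ) (1 : ℚ) := by
      intro k
      exact (map_SL (LinearMap.lsmul ℚ HH ((m + n : ℕ) : ℚ)) _ _).symm
    rw [e1]
    have e2 : ∀ a b : ℕ, mulH (Finsupp.single (a, x) 1) (Finsupp.single (b, y) 1) =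
        SL (shuf x y) fun w => Finsupp.single ((a + b, w) : ℕ × List ℕ) (1 : ℚ) := by
      intro a b
      exact (SL_shuf_single x y a b).symm
    rw [e2, e2]
    cases m with
    | zero =>
      cases n with
      | zero => simp
      | succ n => simp
    | succ m =>
      cases n with
      | zero => simp
      | succ n =>
        have e3 : m + 1 + (n + 1) - 1 = m + n + 1 := by omega
        have e4 : m + 1 - 1 + (n + 1) = m + n + 1 := by omega
        have e5 : m + 1 + (n + 1 - 1) = m + n + 1 := by omega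
        rw [e3, e4, e5, ← add_smul]
        push_cast
        ring_nf
  exact congrArg (fun B : HH →ₗ[ℚ] HH →ₗ[ℚ] HH => B f g) h

lemma dz_der : IsDer dz 2 where
  two := le_rfl
  mul := dz_mul
  low := by
    intro k f hf
    rw [mem_Hk]
    rintro ⟨m, w⟩ hp
    rw [Finsupp.mem_support_iff, dz_apply] at hp
    have h := mem_Hk.1 hf _ (Finsupp.mem_support_iff.2 (right_ne_zero_of_mul hp))
    unfold wt at h ⊢
    simp only at h ⊢
    omega
  zero := by
    intro k hk f hf
    ext ⟨m, w⟩
    rw [dz_apply]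
    by_contra hne
    have hne' : ((m + 1 : ℕ) : ℚ) * f (m + 1, w) ≠ 0 := hne
    have h := mem_Hk.1 hf _ (Finsupp.mem_support_iff.2 (right_ne_zero_of_mul hne'))
    unfold wt at h
    simp only at h
    omega

/-- Some derivation does not kill `x ≠ 0` of positive weight. -/
lemma exists_der {k : ℕ} (hk : k ≠ 0) {x : HH} (hx : x ∈ Hk k) (hx0 : x ≠ 0) :
    ∃ T d, IsDer T d ∧ d ≤ k ∧ T x ≠ 0 := by
  by_cases h : ∀ a m w, x (m, a :: w) = 0
  · obtain ⟨⟨m, w⟩, hp⟩ := Finsupp.support_nonempty_iff.2 hx0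
    have h1 := mem_Hk.1 hx _ hp
    rw [Finsupp.mem_support_iff] at hp
    cases w with
    | cons a w => exact absurd (h a m w) hp
    | nil =>
      unfold wt at h1
      simp only [wl_nil] at h1
      obtain ⟨n, rfl⟩ : ∃ n, m = n + 1 := ⟨m - 1, by omega⟩
      refine ⟨dz, 2, dz_der, by omega, fun h0 => ?_⟩
      have h2 := dz_apply x n []
      rw [h0] at h2
      have h3 : ((n + 1 : ℕ) : ℚ) * x (n + 1, []) ≠ 0 :=
        mul_ne_zero (by exact_mod_cast Nat.succ_ne_zero n) hp
      exact h3 h2.symm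
  · push Not at h
    obtain ⟨a, m, w, h1⟩ := h
    have h2 := mem_Hk.1 hx _ (Finsupp.mem_support_iff.2 h1)
    unfold wt at h2
    simp only [wl_cons] at h2
    refine ⟨der a, 2 * a + 3, der_der a, by omega, fun h0 => ?_⟩
    rw [← der_apply, h0] at h1
    exact h1 rfl

/-- powers -/
noncomputable def pw (x : HH) : ℕ → HH
  | 0 => Finsupp.single (0, []) 1
  | n + 1 => mulH (pw x n) x

lemma pw_mem {k : ℕ} {x : HH} (hx : x ∈ Hk k) (n : ℕ) : pw x n ∈ Hk (n * k) := by
  induction n with
  | zero =>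
    rw [zero_mul]
    exact Finsupp.single_mem_supported _ _ rfl
  | succ n ih => exact mulTo_mem (by ring) ih hx

lemma psi_pw (hψ : IsSurjection Z ψ) (x : HH) (n : ℕ) : ψ (pw x n) = ψ x ^ n := by
  induction n with
  | zero => rw [pow_zero]; exact hψ.one
  | succ n ih => rw [pow_succ, ← ih]; exact hψ.mul _ _

lemma der_one {T : HH →ₗ[ℚ] HH} {d : ℕ} (hT : IsDer T d) :
    T (Finsupp.single (0, []) 1) = 0 := by
  refine hT.zero 0 (by have := hT.two; omega) _ ?_
  exact Finsupp.single_mem_supported _ _ rfl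

lemma psi_der_pw (hψ : IsSurjection Z ψ) {T : HH →ₗ[ℚ] HH} {d : ℕ} (hT : IsDer T d) (x : HH)
    (n : ℕ) : ψ (T (pw x n)) = n * ψ x ^ (n - 1) * ψ (T x) := by
  induction n with
  | zero =>
    change ψ (T (Finsupp.single (0, []) 1)) = _
    rw [der_one hT]
    simp
  | succ n ih =>
    change ψ (T (mulH (pw x n) x)) = _
    rw [hT.mul, map_add, hψ.mul, hψ.mul, ih, psi_pw hψ]
    cases n with
    | zero => simp
    | succ n =>
      rw [Nat.add_sub_cancel, Nat.add_sub_cancel]
      push_cast
      ring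

/-- If there are no relations, algebraic quotients of elements of equal weight are preserved by
derivations. -/
lemma quot_der (hψ : IsSurjection Z ψ) (hinj : ∀ k, Ik ψ k = ⊥) {T : HH →ₗ[ℚ] HH} {d : ℕ}
    (hT : IsDer T d) {k : ℕ} {x y : HH} (hx : x ∈ Hk k) (hy : y ∈ Hk k) {α : ℝ}
    (hα : IsIntegral ℚ α) (hxy : ψ x = α * ψ y) (hy0 : ψ y ≠ 0) : ψ (T x) = α * ψ (T y) := by
  set P := minpoly ℚ α with hP
  set n := P.natDegree with hn
  set R : HH := ∑ j ∈ Finset.range (n + 1), P.coeff j • mulH (pw x j) (pw y (n - j)) with hR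
  have hRm : R ∈ Hk (n * k) := by
    refine Submodule.sum_mem _ fun j hj => Submodule.smul_mem _ _ ?_
    have hj' := Finset.mem_range.1 hj
    refine mulTo_mem ?_ (pw_mem hx j) (pw_mem hy (n - j))
    rw [← add_mul, Nat.add_sub_cancel' (by omega)]
  have haev : ∑ j ∈ Finset.range (n + 1), (P.coeff j : ℝ) * α ^ j = 0 := by
    have h1 := minpoly.aeval ℚ α
    rw [Polynomial.aeval_eq_sum_range] at h1
    rw [← h1]
    refine Finset.sum_congr rfl fun j _ => ?_
    rw [Rat.smul_def]
  have hR0 : ψ R = 0 := by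
    rw [hR, map_sum]
    have h2 : ∀ j ∈ Finset.range (n + 1), ψ (P.coeff j • mulH (pw x j) (pw y (n - j))) =
        ((P.coeff j : ℝ) * α ^ j) * ψ y ^ n := by
      intro j hj
      have hj' := Finset.mem_range.1 hj
      rw [map_smul, hψ.mul, psi_pw hψ, psi_pw hψ, Rat.smul_def, hxy, mul_pow]
      have e1 : ψ y ^ n = ψ y ^ j * ψ y ^ (n - j) := by
        rw [← pow_add, Nat.add_sub_cancel' (by omega)]
      rw [e1]
      ring
    rw [Finset.sum_congr rfl h2, ← Finset.sum_mul, haev, zero_mul]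
  have hRz : R = 0 := by
    have h3 : R ∈ Ik ψ (n * k) := mem_Ik.2 ⟨hRm, hR0⟩
    rwa [hinj, Submodule.mem_bot] at h3
  have hTR : ψ (T R) = 0 := by rw [hRz, map_zero, map_zero]
  have hder : ∑ j ∈ Finset.range (n + 1), (P.coeff j : ℝ) * (j * α ^ (j - 1)) =
      Polynomial.aeval α (Polynomial.derivative P) := by
    conv_rhs => rw [P.as_sum_range_C_mul_X_pow]
    rw [Polynomial.derivative_sum, map_sum]
    refine Finset.sum_congr rfl fun j _ => ?_
    rw [Polynomial.derivative_C_mul_X_pow, map_mul, Polynomial.aeval_C, map_pow,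
      Polynomial.aeval_X]
    simp only [eq_ratCast]
    push_cast
    ring
  have hexp : ψ (T R) = ψ y ^ (n - 1) *
      (Polynomial.aeval α (Polynomial.derivative P) * (ψ (T x) - α * ψ (T y))) := by
    have h5 : ψ (T R) = ∑ j ∈ Finset.range (n + 1), ψ y ^ (n - 1) *
        ((P.coeff j : ℝ) * (j * α ^ (j - 1)) * (ψ (T x) - α * ψ (T y)) +
          (P.coeff j : ℝ) * α ^ j * (n * ψ (T y))) := by
      rw [hR, map_sum, map_sum]
      refine Finset.sum_congr rfl fun j hj => ?_
      have hj' := Finset.mem_range.1 hj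
      rw [map_smul, map_smul, hT.mul, map_add, hψ.mul, hψ.mul, psi_der_pw hψ hT,
        psi_der_pw hψ hT, psi_pw hψ, psi_pw hψ, Rat.smul_def, hxy]
      -- cases
      rcases Nat.eq_zero_or_pos j with rfl | hj0
      · rcases Nat.eq_zero_or_pos n with h0 | h0
        · rw [h0]; simp
        · simp
          ring
      · rcases Nat.lt_or_ge j n with h1 | h1
        · have e1 : n - 1 = (j - 1) + (n - j) := by omega
          have e2 : n - 1 = j + (n - j - 1) := by omega
          have e3 : α ^ j = α ^ (j - 1) * α := by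
            rw [← pow_succ, Nat.sub_add_cancel hj0]
          have e4 : ((n - j : ℕ) : ℝ) = (n : ℝ) - j := by
            rw [Nat.cast_sub h1.le]
          have e5 : ψ y ^ (n - 1) = ψ y ^ (j - 1) * ψ y ^ (n - j) := by rw [← pow_add, ← e1]
          have e6 : ψ y ^ (n - 1) = ψ y ^ j * ψ y ^ (n - j - 1) := by rw [← pow_add, ← e2]
          rw [mul_pow, mul_pow, e4]
          calc _ = (P.coeff j : ℝ) * (j * α ^ (j - 1) * (ψ y ^ (j - 1) * ψ y ^ (n - j)) * ψ (T x) +
                α ^ j * (ψ y ^ j * ψ y ^ (n - j - 1)) * ((n : ℝ) - j) * ψ (T y)) := by ring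
            _ = _ := by rw [← e5, ← e6, e3]; ring
        · have h2 : j = n := by omega
          rw [h2, Nat.sub_self]
          have e3 : α ^ n = α ^ (n - 1) * α := by
            rw [← pow_succ, Nat.sub_add_cancel (by omega)]
          rw [mul_pow, e3]
          simp
          ring
    rw [h5, ← Finset.mul_sum, Finset.sum_add_distrib, ← Finset.sum_mul, ← Finset.sum_mul, haev,
      hder]
    ring
  rw [hexp] at hTR
  have hP' : Polynomial.aeval α (Polynomial.derivative P) ≠ 0 := by
    have hsep : P.Separable := (minpoly.irreducible hα).separable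
    exact hsep.aeval_derivative_ne_zero (minpoly.aeval ℚ α)
  have h6 := (mul_eq_zero.1 hTR).resolve_left (pow_ne_zero _ hy0)
  have h7 := (mul_eq_zero.1 h6).resolve_left hP'
  linarith

/-- **Algebraic quotients are rational.** -/
theorem quot_rat (hψ : IsSurjection Z ψ) (hinj : ∀ k, Ik ψ k = ⊥) {α : ℝ} (hα : IsIntegral ℚ α) :
    ∀ k, ∀ x ∈ Hk k, ∀ y ∈ Hk k, y ≠ 0 → ψ x = α * ψ y → ∃ q : ℚ, (q : ℝ) = α := by
  intro k
  induction k using Nat.strong_induction_on with
  | _ k ih =>
    intro x hx y hy hy0 hxy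
    have hψy : ψ y ≠ 0 := by
      intro h0
      have h1 : y ∈ Ik ψ k := mem_Ik.2 ⟨hy, h0⟩
      rw [hinj, Submodule.mem_bot] at h1
      exact hy0 h1
    by_cases hk : k = 0
    · subst hk
      have key : ∀ z ∈ Hk 0, ψ z = ((z (0, []) : ℚ) : ℝ) := by
        intro z hz
        have h1 : z = z (0, []) • Finsupp.single (0, []) (1 : ℚ) := by
          ext p
          rw [Finsupp.smul_apply, smul_eq_mul, Finsupp.single_apply]
          split_ifs with h
          · rw [h, mul_one]
          · rw [mul_zero]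
            by_contra h'
            have h2 := mem_Hk.1 hz p (Finsupp.mem_support_iff.2 h')
            obtain ⟨m, w⟩ := p
            unfold wt at h2
            simp only at h2
            exact h (by rw [wl_eq_zero (u := w) (by omega), show m = 0 by omega])
        conv_lhs => rw [h1, map_smul, hψ.one, Rat.smul_def, mul_one]
      refine ⟨x (0, []) / y (0, []), ?_⟩
      have h1 := key x hx
      have h2 := key y hy
      push_cast
      rw [← h1, ← h2, hxy]
      field_simp
    · obtain ⟨T, d, hT, hd, hTy⟩ := exists_der hk hy hy0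
      obtain ⟨i, rfl⟩ : ∃ i, k = i + d := ⟨k - d, by omega⟩
      have := hT.two
      exact ih i (by omega) (T x) (hT.low i x hx) (T y) (hT.low i y hy) hTy
        (quot_der hψ hinj hT hx hy hα hxy hψy)

end Pool.Agent.J4.H88.MZ
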