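import Pool.Agent.J4.H88.MZ.Alg

/-!
# Linear independence over the real algebraic numbers
-/

set_option autoImplicit false

namespace Pool.Agent.J4.H88.MZ

open Pool.Agent.J4.H42.MZ Module Filter Topology Polynomial

section field

variable (K : IntermediateField ℚ ℝ)

lemma natDegree_le (hrat : ∀ α : K, IsIntegral ℚ α → ∃ q : ℚ, algebraMap ℚ K q = α) {θ : ℝ}
    (hθ : IsIntegral ℚ θ) : (minpoly ℚ θ).natDegree ≤ (minpoly K θ).natDegree := by
  have hθK : IsIntegral K θ := hθ.tower_top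
  have hmon := minpoly.monic hθK
  have hdvd : minpoly K θ ∣ (minpoly ℚ θ).map (algebraMap ℚ K) :=
    minpoly.dvd_map_of_isScalarTower ℚ K θ
  have h1 := integralClosure.mem_lifts_of_monic_of_dvd_map K (minpoly.monic hθ) hmon hdvd
  have h2 : minpoly K θ ∈ lifts (algebraMap ℚ K) := by
    rw [lifts_iff_coeff_lifts] at h1 ⊢
    intro n
    obtain ⟨c, hc⟩ := h1 n
    obtain ⟨q, hq⟩ := hrat _ c.2
    exact ⟨q, by rw [hq]; exact hc⟩
  obtain ⟨G, hG1, hG2, hG3⟩ := lifts_and_natDegree_eq_and_monic h2 hmon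
  have h3 : aeval θ G = 0 := by
    have h4 := minpoly.aeval K θ
    rw [← hG1, aeval_map_algebraMap] at h4
    exact h4
  have h5 := natDegree_le_of_dvd (minpoly.dvd ℚ θ h3) hG3.ne_zero
  omega

lemma linInd_alg (hrat : ∀ α : K, IsIntegral ℚ α → ∃ q : ℚ, algebraMap ℚ K q = α) {ι : Type}
    [Fintype ι] (y : ι → K) (hy : LinearIndependent ℚ y) (α : ι → ℝ)
    (hα : ∀ i, IsIntegral ℚ (α i)) (h0 : ∑ i, α i * (y i : ℝ) = 0) : ∀ i, α i = 0 := by
  classical
  set F : IntermediateField ℚ ℝ := IntermediateField.adjoin ℚ (Set.range α) with hF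
  have : FiniteDimensional ℚ F := by
    apply IntermediateField.finiteDimensional_adjoin
    rintro x ⟨i, rfl⟩
    exact hα i
  let pb : PowerBasis ℚ F := Field.powerBasisOfFiniteOfSeparable ℚ F
  have hmem : ∀ i, α i ∈ F := fun i => IntermediateField.subset_adjoin ℚ _ ⟨i, rfl⟩
  set θ : ℝ := (pb.gen : ℝ) with hθ
  have hθi : IsIntegral ℚ θ := by
    have h1 : IsIntegral ℚ pb.gen := Algebra.IsIntegral.isIntegral _
    exact h1.map (IsScalarTower.toAlgHom ℚ F ℝ)
  have hdim : pb.dim ≤ (minpoly K θ).natDegree := by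
    have h1 : minpoly ℚ θ = minpoly ℚ pb.gen :=
      minpoly.algebraMap_eq (algebraMap F ℝ).injective pb.gen
    have h2 := natDegree_le K hrat hθi
    rw [h1, pb.natDegree_minpoly] at h2
    exact h2
  -- coefficients
  set c : ι → Fin pb.dim → ℚ := fun i j => pb.basis.repr ⟨α i, hmem i⟩ j with hc
  have hsum : ∀ i, α i = ∑ j, (c i j : ℝ) * θ ^ (j : ℕ) := by
    intro i
    have h1 := pb.basis.sum_repr ⟨α i, hmem i⟩
    have h2 := congrArg (fun z : F => (z : ℝ)) h1
    simp only at h2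
    rw [← h2]
    rw [show (((∑ j, (pb.basis.repr ⟨α i, hmem i⟩) j • pb.basis j : F)) : ℝ) =
      ∑ j, (((pb.basis.repr ⟨α i, hmem i⟩) j • pb.basis j : F) : ℝ) from map_sum F.val _ _]
    refine Finset.sum_congr rfl fun j _ => ?_
    rw [pb.coe_basis]
    change (((pb.basis.repr ⟨α i, hmem i⟩) j • pb.gen ^ (j : ℕ) : F) : ℝ) = _
    rw [show (((pb.basis.repr ⟨α i, hmem i⟩) j • pb.gen ^ (j : ℕ) : F) : ℝ) =
      (pb.basis.repr ⟨α i, hmem i⟩) j • ((pb.gen : F) : ℝ) ^ (j : ℕ) from rfl, Rat.smul_def]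
  have hli : LinearIndependent K fun j : Fin pb.dim => θ ^ (j : ℕ) := by
    have h1 : LinearIndependent K fun j : Fin (minpoly K θ).natDegree => θ ^ (j : ℕ) :=
      linearIndependent_pow θ
    exact h1.comp (Fin.castLE hdim) (Fin.castLE_injective hdim)
  have hw : ∀ j, ∑ i, c i j • y i = 0 := by
    rw [Fintype.linearIndependent_iff] at hli
    refine hli (fun j => ∑ i, c i j • y i) ?_
    have h1 : ∀ j : Fin pb.dim, (∑ i, c i j • y i : K) • θ ^ (j : ℕ) =
        ∑ i, (c i j : ℝ) * θ ^ (j : ℕ) * (y i : ℝ) := by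
      intro j
      rw [IntermediateField.smul_def, smul_eq_mul,
        show (((∑ i, c i j • y i : K)) : ℝ) = ∑ i, ((c i j • y i : K) : ℝ) from map_sum K.val _ _,
        Finset.sum_mul]
      refine Finset.sum_congr rfl fun i _ => ?_
      rw [show ((c i j • y i : K) : ℝ) = c i j • (y i : ℝ) from rfl, Rat.smul_def]
      ring
    simp only [h1]
    rw [Finset.sum_comm, ← h0]
    refine Finset.sum_congr rfl fun i _ => ?_
    rw [← Finset.sum_mul, ← hsum]
  intro i
  rw [hsum i]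
  refine Finset.sum_eq_zero fun j _ => ?_
  have h1 := Fintype.linearIndependent_iff.1 hy (fun i => c i j) (hw j) i
  rw [h1]
  simp

end field

variable {Z : ℕ → Submodule ℚ ℝ} {ψ : HH →ₗ[ℚ] ℝ}

/-- the field of the quotients of elements of equal weight -/
noncomputable def KK (hψ : IsSurjection Z ψ) : IntermediateField ℚ ℝ where
  carrier := {α | ∃ k, ∃ x ∈ Hk k, ∃ y ∈ Hk k, ψ y ≠ 0 ∧ ψ x = α * ψ y}
  mul_mem' := by
    rintro α β ⟨k, x, hx, y, hy, hy0, hxy⟩ ⟨l, x', hx', y', hy', hy0', hxy'⟩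
    refine ⟨k + l, mulH x x', mulH_mem hx hx', mulH y y', mulH_mem hy hy', ?_, ?_⟩
    · rw [hψ.mul]
      exact mul_ne_zero hy0 hy0'
    · rw [hψ.mul, hψ.mul, hxy, hxy']
      ring
  add_mem' := by
    rintro α β ⟨k, x, hx, y, hy, hy0, hxy⟩ ⟨l, x', hx', y', hy', hy0', hxy'⟩
    refine ⟨k + l, mulH x y' + mulH y x', Submodule.add_mem _ (mulH_mem hx hy') (mulH_mem hy hx'),
      mulH y y', mulH_mem hy hy', ?_, ?_⟩
    · rw [hψ.mul]
      exact mul_ne_zero hy0 hy0'
    · rw [map_add, hψ.mul, hψ.mul, hψ.mul, hxy, hxy']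
      ring
  algebraMap_mem' := by
    intro r
    have h1 : (Finsupp.single (0, []) 1 : HH) ∈ Hk 0 := Finsupp.single_mem_supported _ _ rfl
    refine ⟨0, r • Finsupp.single (0, []) 1, Submodule.smul_mem _ _ h1, Finsupp.single (0, []) 1, h1,
      ?_, ?_⟩
    · rw [hψ.one]; exact one_ne_zero
    · rw [map_smul, hψ.one, Rat.smul_def]
      rfl
  inv_mem' := by
    rintro α ⟨k, x, hx, y, hy, hy0, hxy⟩
    by_cases hα : α = 0
    · subst hα
      rw [inv_zero]
      exact ⟨k, 0, Submodule.zero_mem _, y, hy, hy0, by rw [map_zero, zero_mul]⟩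
    · refine ⟨k, y, hy, x, hx, ?_, ?_⟩
      · rw [hxy]
        exact mul_ne_zero hα hy0
      · rw [hxy]
        field_simp

lemma mem_KK (hψ : IsSurjection Z ψ) {α : ℝ} :
    α ∈ KK hψ ↔ ∃ k, ∃ x ∈ Hk k, ∃ y ∈ Hk k, ψ y ≠ 0 ∧ ψ x = α * ψ y := Iff.rfl

lemma KK_rat (hψ : IsSurjection Z ψ) (hinj : ∀ k, Ik ψ k = ⊥) (α : KK hψ) (hα : IsIntegral ℚ α) :
    ∃ q : ℚ, algebraMap ℚ (KK hψ) q = α := by
  obtain ⟨k, x, hx, y, hy, hy0, hxy⟩ := (mem_KK hψ).1 α.2
  have h1 : IsIntegral ℚ (α : ℝ) := hα.map (IsScalarTower.toAlgHom ℚ (KK hψ) ℝ)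
  obtain ⟨q, hq⟩ := quot_rat hψ hinj h1 k x hx y hy (by rintro rfl; exact hy0 (map_zero _)) hxy
  exact ⟨q, Subtype.ext hq⟩

/-- **From rational to algebraic coefficients.** -/
theorem linInd_Z (hψ : IsSurjection Z ψ) (hinj : ∀ k, Ik ψ k = ⊥) {k : ℕ} {ι : Type} [Fintype ι]
    (z : ι → ℝ) (hz : ∀ i, z i ∈ Z k) (hli : LinearIndependent ℚ z) (α : ι → ℝ)
    (hα : ∀ i, IsIntegral ℚ (α i)) (h0 : ∑ i, α i * z i = 0) : ∀ i, α i = 0 := by
  by_cases hne : Nonempty ι
  · obtain ⟨i0⟩ := hne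
    have hz0 : z i0 ≠ 0 := hli.ne_zero i0
    have hlift : ∀ i, ∃ x ∈ Hk k, ψ x = z i := by
      intro i
      have h1 := hz i
      rw [← hψ.map k, Submodule.mem_map] at h1
      exact h1
    choose x hx hxz using hlift
    let y : ι → KK hψ := fun i => ⟨z i / z i0, (mem_KK hψ).2 ⟨k, x i, hx i, x i0, hx i0, by
      rw [hxz]; exact hz0, by rw [hxz, hxz]; field_simp⟩⟩
    have hy : LinearIndependent ℚ y := by
      rw [Fintype.linearIndependent_iff] at hli ⊢
      intro g hg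
      apply hli
      have h1 := congrArg (fun w : KK hψ => (w : ℝ) * z i0) hg
      rw [show ((∑ i, g i • y i : KK hψ) : ℝ) = ∑ i, ((g i • y i : KK hψ) : ℝ) from
        map_sum (KK hψ).val _ _, Finset.sum_mul] at h1
      rw [show ((0 : KK hψ) : ℝ) * z i0 = 0 by simp] at h1
      rw [← h1]
      refine Finset.sum_congr rfl fun i _ => ?_
      rw [show ((g i • y i : KK hψ) : ℝ) = g i • (z i / z i0) from rfl, Rat.smul_def, Rat.smul_def]
      field_simp
    refine linInd_alg (KK hψ) (KK_rat hψ hinj) y hy α hα ?_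
    have h2 : ∑ i, α i * (y i : ℝ) = (∑ i, α i * z i) / z i0 := by
      rw [Finset.sum_div]
      refine Finset.sum_congr rfl fun i _ => ?_
      change α i * (z i / z i0) = _
      ring
    rw [h2, h0, zero_div]
  · intro i
    exact absurd ⟨i⟩ hne

/-- the field of real algebraic numbers -/
noncomputable abbrev AA : IntermediateField ℚ ℝ := algebraicClosure ℚ ℝ

/-- the dimension over the real algebraic numbers -/
noncomputable def dA (Z : ℕ → Submodule ℚ ℝ) (k : ℕ) : ℕ :=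
  finrank AA (Submodule.span AA ((Z k : Set ℝ)))

lemma span_basis (hψ : IsSurjection Z ψ) (k : ℕ) :
    ∃ z : Fin (finrank ℚ (Z k)) → ℝ, (∀ i, z i ∈ Z k) ∧ LinearIndependent ℚ z ∧
      Submodule.span AA ((Z k : Set ℝ)) = Submodule.span AA (Set.range z) := by
  have := hψ.finite k
  let b := finBasis ℚ (Z k)
  refine ⟨fun i => (b i : ℝ), fun i => (b i).2, ?_, ?_⟩
  · exact b.linearIndependent.map' (Z k).subtype (Submodule.ker_subtype _)
  · refine le_antisymm (Submodule.span_le.2 ?_) (Submodule.span_mono ?_)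
    · intro w hw
      have h1 := b.sum_repr ⟨w, hw⟩
      have h2 := congrArg (fun v : Z k => (v : ℝ)) h1
      simp only at h2
      rw [show ((∑ i, b.repr ⟨w, hw⟩ i • b i : Z k) : ℝ) =
        ∑ i, ((b.repr ⟨w, hw⟩ i • b i : Z k) : ℝ) from map_sum (Z k).subtype _ _] at h2
      rw [← h2]
      refine Submodule.sum_mem _ fun i _ => ?_
      have h3 : ((b.repr ⟨w, hw⟩ i • b i : Z k) : ℝ) =
          (algebraMap ℚ AA (b.repr ⟨w, hw⟩ i)) • (b i : ℝ) := by
        rw [algebraMap_smul]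
        rfl
      rw [h3]
      exact Submodule.smul_mem _ _ (Submodule.subset_span ⟨i, rfl⟩)
    · rintro _ ⟨i, rfl⟩
      exact (b i).2

lemma dA_le (hψ : IsSurjection Z ψ) (k : ℕ) : dA Z k ≤ finrank ℚ (Z k) := by
  obtain ⟨z, _, _, hz⟩ := span_basis hψ k
  unfold dA
  rw [hz]
  have h := finrank_range_le_card (R := AA) z
  rw [Fintype.card_fin] at h
  exact h

lemma Z_le (hψ : IsSurjection Z ψ) (k : ℕ) : finrank ℚ (Z k) ≤ D k := by
  have := hψ.add_eq k
  omega

lemma dA_eq (hψ : IsSurjection Z ψ) (hinj : ∀ k, Ik ψ k = ⊥) (k : ℕ) : dA Z k = D k := by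
  obtain ⟨z, hz1, hz2, hz3⟩ := span_basis hψ k
  unfold dA
  rw [hz3]
  have hli : LinearIndependent AA z := by
    rw [Fintype.linearIndependent_iff]
    intro g hg i
    have h1 := linInd_Z hψ hinj z hz1 hz2 (fun i => (g i : ℝ)) (fun i => by
      have h2 := (g i).2
      rw [mem_algebraicClosure_iff] at h2
      exact h2.isIntegral) (by
      rw [← hg]
      exact Finset.sum_congr rfl fun i _ => rfl) i
    exact Subtype.ext h1
  rw [finrank_span_eq_card hli, Fintype.card_fin]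
  exact (dim_iff hψ k).2 (hinj k)

theorem iso_iff_dA (hψ : IsSurjection Z ψ) : GradedIso Z ↔ {k | dA Z k = D k}.Infinite := by
  constructor
  · intro h
    have h1 : {k | dA Z k = D k} = Set.univ := Set.eq_univ_of_forall fun k =>
      dA_eq hψ (fun k => (dim_iff hψ k).1 (dims_of_iso h k)) k
    rw [h1]
    exact Set.infinite_univ
  · intro h
    rw [iso_iff_infinite hψ]
    refine h.mono fun k hk => ?_
    have h1 : dA Z k = D k := hk
    have h2 := dA_le hψ k
    have h3 := Z_le hψ k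
    change finrank ℚ (Z k) = D k
    omega

theorem iso_iff_dA_limsup (hψ : IsSurjection Z ψ) :
    GradedIso Z ↔ limsup (fun k => (dA Z k : ℝ) / D k) atTop = 1 := by
  constructor
  · intro h
    refine limsup_one ?_
    filter_upwards [eventually_gt_atTop 1] with k hk
    rw [dA_eq hψ (fun k => (dim_iff hψ k).1 (dims_of_iso h k)) k]
    have := D_pos (k := k) (by omega)
    exact div_self (by positivity)
  · intro hl
    refine iso_of_no_rel hψ ?_
    rintro ⟨e, r, hr, hr0⟩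
    obtain ⟨ρ, h1, h2, h3⟩ := exists_rho
    have h := limsup_le_of_gap (a := D) (b := fun k => dA Z k) (e := e) (fun k => by
      have h4 := gap_rel hψ hr hr0 k
      have h5 := dA_le hψ (k + e)
      omega) (D_ratio h1 h2 h3 e)
    rw [hl] at h
    have : 0 < (ρ ^ e)⁻¹ := by positivity
    linarith

end Pool.Agent.J4.H88.MZ
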