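import Pool.Agent.J4.H42.MZ.Main

/-!
# Operators which respect the relations of one weight
-/

set_option autoImplicit false

namespace Pool.Agent.J4.H88.MZ

open Pool.Agent.J4.H42.MZ Module

/-- The component of weight `j`. -/
noncomputable def comp (j : ℕ) : HH →ₗ[ℚ] HH where
  toFun f := f.filter fun p => wt p = j
  map_add' _ _ := Finsupp.filter_add
  map_smul' _ _ := Finsupp.filter_smul

lemma comp_apply (j : ℕ) (f : HH) (p : ℕ × List ℕ) : comp j f p = if wt p = j then f p else 0 := by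
  change (f.filter fun p => wt p = j) p = _
  rw [Finsupp.filter_apply]

lemma comp_mem (j : ℕ) (f : HH) : comp j f ∈ Hk j := by
  rw [mem_Hk]
  intro p hp
  rw [Finsupp.mem_support_iff, comp_apply] at hp
  by_contra h
  rw [if_neg h] at hp
  exact hp rfl

lemma comp_same {j : ℕ} {f : HH} (hf : f ∈ Hk j) : comp j f = f := by
  ext p
  rw [comp_apply]
  split_ifs with h
  · rfl
  · by_contra hne
    exact h (mem_Hk.1 hf p (Finsupp.mem_support_iff.2 fun h0 => hne h0.symm))

lemma comp_ne {i j : ℕ} (hij : i ≠ j) {f : HH} (hf : f ∈ Hk j) : comp i f = 0 := by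
  ext p
  rw [comp_apply]
  split_ifs with h
  · by_contra hne
    exact hij (h.symm.trans (mem_Hk.1 hf p (Finsupp.mem_support_iff.2 hne)))
  · rfl

/-- The operator `T` respects the linear relations of weight `k`: if `r` is of weight `k` and
`ψ r = 0`, then `ψ` vanishes on all homogeneous components of `T r`. -/
def Acts (ψ : HH →ₗ[ℚ] ℝ) (T : HH →ₗ[ℚ] HH) (k : ℕ) : Prop :=
  ∀ r ∈ Hk k, ψ r = 0 → ∀ j, ψ (comp j (T r)) = 0

/-- unipotent endomorphisms of the algebra -/
structure IsUni (T : HH →ₗ[ℚ] HH) : Prop where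
  mul : ∀ f g : HH, T (mulH f g) = mulH (T f) (T g)
  low : ∀ k, ∀ f ∈ Hk k, T f - f ∈ Finsupp.supported ℚ ℚ {p | wt p + 2 ≤ k}

/-- derivations which lower the weight by `d ≥ 2` -/
structure IsDer (T : HH →ₗ[ℚ] HH) (d : ℕ) : Prop where
  two : 2 ≤ d
  mul : ∀ f g : HH, T (mulH f g) = mulH (T f) g + mulH f (T g)
  low : ∀ k, ∀ f ∈ Hk (k + d), T f ∈ Hk k
  zero : ∀ k, k < d → ∀ f ∈ Hk k, T f = 0

/-! ### the graded evaluation -/

lemma single_mul (p q : ℕ × List ℕ) : mulH (Finsupp.single p 1) (Finsupp.single q 1) =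
    ((shuf p.2 q.2).map fun w => Finsupp.single (p.1 + q.1, w) (1 : ℚ)).sum := by
  unfold mulH
  rw [Finsupp.sum_single_index, Finsupp.sum_single_index]
  · rw [mul_one, one_smul]
  · simp
  · rw [Finsupp.sum_single_index] <;> simp

lemma mulH_add_right (f g g' : HH) : mulH f (g + g') = mulH f g + mulH f g' := by
  unfold mulH
  rw [← Finsupp.sum_add]
  congr 1
  ext p c : 2
  rw [Finsupp.sum_add_index']
  · intro q; simp
  · intro q d d'
    rw [mul_add, add_smul]

lemma mulH_smul_right (c : ℚ) (f g : HH) : mulH f (c • g) = c • mulH f g := by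
  unfold mulH
  rw [Finsupp.smul_sum]
  congr 1
  ext p d : 2
  rw [Finsupp.sum_smul_index' (by intro q; simp), Finsupp.smul_sum]
  congr 1
  ext q d' : 2
  rw [smul_smul, smul_eq_mul]
  ring_nf

/-- the product as a bilinear map -/
noncomputable def mulB : HH →ₗ[ℚ] HH →ₗ[ℚ] HH :=
  LinearMap.mk₂ ℚ mulH mulH_add_left mulH_smul_left mulH_add_right mulH_smul_right

lemma mulB_apply (f g : HH) : mulB f g = mulH f g := rfl

/-- Two bilinear maps which agree on monomials are equal. -/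
lemma bil_ext {M : Type*} [AddCommGroup M] [Module ℚ M] {A B : HH →ₗ[ℚ] HH →ₗ[ℚ] M}
    (h : ∀ p q, A (Finsupp.single p 1) (Finsupp.single q 1) =
      B (Finsupp.single p 1) (Finsupp.single q 1)) : A = B := by
  refine Finsupp.lhom_ext' fun p => LinearMap.ext_ring ?_
  refine Finsupp.lhom_ext' fun q => LinearMap.ext_ring ?_
  exact h p q

variable {Z : ℕ → Submodule ℚ ℝ} {ψ : HH →ₗ[ℚ] ℝ}

/-- the graded evaluation -/
noncomputable def psiX (ψ : HH →ₗ[ℚ] ℝ) : HH →ₗ[ℚ] Polynomial ℝ :=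
  Finsupp.linearCombination ℚ fun p => Polynomial.monomial (wt p) (ψ (Finsupp.single p 1))

lemma psiX_single (p : ℕ × List ℕ) :
    psiX ψ (Finsupp.single p 1) = Polynomial.monomial (wt p) (ψ (Finsupp.single p 1)) := by
  unfold psiX
  rw [Finsupp.linearCombination_single, one_smul]

/-- taking a coefficient, as a linear map -/
noncomputable def lco (j : ℕ) : Polynomial ℝ →ₗ[ℚ] ℝ :=
  (Polynomial.lcoeff ℝ j).restrictScalars ℚ

lemma psiX_coeff (f : HH) (j : ℕ) : (psiX ψ f).coeff j = ψ (comp j f) := by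
  have h : (lco j).comp (psiX ψ) = ψ.comp (comp j) := by
    refine Finsupp.lhom_ext' fun p => LinearMap.ext_ring ?_
    change (psiX ψ (Finsupp.single p 1)).coeff j = ψ (comp j (Finsupp.single p 1))
    rw [psiX_single, Polynomial.coeff_monomial]
    by_cases hp : wt p = j
    · rw [if_pos hp, comp_same]
      rw [mem_Hk]
      intro q hq
      rw [Finsupp.support_single_ne_zero _ one_ne_zero, Finset.mem_singleton] at hq
      rw [hq, hp]
    · rw [if_neg hp, comp_ne (i := j) (j := wt p) (Ne.symm hp), map_zero]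
      rw [mem_Hk]
      intro q hq
      rw [Finsupp.support_single_ne_zero _ one_ne_zero, Finset.mem_singleton] at hq
      rw [hq]
  exact congrArg (fun L => L f) h

lemma map_list_sum' {M N : Type*} [AddCommGroup M] [Module ℚ M] [AddCommGroup N] [Module ℚ N]
    (T : M →ₗ[ℚ] N) {α : Type*} (L : List α) (F : α → M) :
    T (L.map F).sum = (L.map fun x => T (F x)).sum := by
  rw [map_list_sum, List.map_map]
  rfl

lemma psiX_mul (hψ : IsSurjection Z ψ) (f g : HH) :
    psiX ψ (mulH f g) = psiX ψ f * psiX ψ g := by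
  have h : mulB.compr₂ (psiX ψ) = (LinearMap.mul ℚ (Polynomial ℝ)).compl₁₂ (psiX ψ) (psiX ψ) := by
    refine bil_ext fun p q => ?_
    change psiX ψ (mulH _ _) = psiX ψ _ * psiX ψ _
    rw [psiX_single, psiX_single, Polynomial.monomial_mul_monomial, ← hψ.mul, single_mul,
      map_list_sum', map_list_sum']
    have e1 : ((shuf p.2 q.2).map fun w => psiX ψ (Finsupp.single (p.1 + q.1, w) 1)) =
        (shuf p.2 q.2).map fun w =>
          Polynomial.monomial (wt p + wt q) (ψ (Finsupp.single (p.1 + q.1, w) 1)) := by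
      refine List.map_congr_left fun w hw => ?_
      rw [psiX_single]
      have h1 := wl_of_mem _ _ _ hw
      have h2 : wt (p.1 + q.1, w) = wt p + wt q := by
        unfold wt
        simp only
        omega
      rw [h2]
    rw [e1, map_list_sum, List.map_map]
    rfl
  have h1 := congrArg (fun B : HH →ₗ[ℚ] HH →ₗ[ℚ] Polynomial ℝ => B f g) h
  exact h1

/-! ### the lowest relation -/

/-- Given a relation of weight `k` there is a relation `x` of weight `j ≤ k`, `j ≠ k - 1`, below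
which (in weights `≤ j - 2`) there are no relations. -/
lemma exists_low (hZ : ∀ n, 2 ≤ n → ∃ y ∈ Hk n, ψ y ≠ 0) {k : ℕ} (h : Ik ψ k ≠ ⊥) :
    ∃ j x, j ≤ k ∧ j + 1 ≠ k ∧ x ∈ Ik ψ j ∧ x ≠ 0 ∧ (∀ i, i + 2 ≤ j → Ik ψ i = ⊥) ∧
      (j = k ∨ (∀ i, i < j → Ik ψ i = ⊥) ∧ ∃ n, 2 ≤ n ∧ j + n = k ∧ ∃ y ∈ Hk n, ψ y ≠ 0) := by
  classical
  have hex : ∃ i, Ik ψ i ≠ ⊥ := ⟨k, h⟩
  have h1 := Nat.find_spec hex
  have h2 : ∀ i, i < Nat.find hex → Ik ψ i = ⊥ := fun i hi => by
    have := Nat.find_min hex hi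
    push Not at this
    exact this
  have h3 : Nat.find hex ≤ k := Nat.find_min' hex h
  set e := Nat.find hex with he
  by_cases hek : e + 2 ≤ k
  · obtain ⟨x, hx, hx0⟩ := Submodule.exists_mem_ne_zero_of_ne_bot h1
    exact ⟨e, x, h3, by omega, hx, hx0, fun i hi => h2 i (by omega),
      Or.inr ⟨h2, k - e, by omega, by omega, hZ _ (by omega)⟩⟩
  · obtain ⟨x, hx, hx0⟩ := Submodule.exists_mem_ne_zero_of_ne_bot h
    exact ⟨k, x, le_rfl, by omega, hx, hx0, fun i hi => h2 i (by omega), Or.inl rfl⟩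

/-- The lowest relation is fixed by the unipotent endomorphisms which respect the relations of
weight `k`. -/
lemma fixed_of_acts (hψ : IsSurjection Z ψ) {T : HH →ₗ[ℚ] HH} (hT : IsUni T) {k j : ℕ} {x : HH}
    (hact : Acts ψ T k) (hx : x ∈ Ik ψ j) (hlow : ∀ i, i + 2 ≤ j → Ik ψ i = ⊥)
    (hjk : j = k ∨ ∃ n, 2 ≤ n ∧ j + n = k ∧ ∃ y ∈ Hk n, ψ y ≠ 0) : T x = x := by
  obtain ⟨hx1, hx2⟩ := mem_Ik.1 hx
  -- psiX (T x) = 0
  have hzero : psiX ψ (T x) = 0 := by
    rcases hjk with rfl | ⟨n, hn, rfl, y, hy, hy0⟩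
    · ext i
      rw [psiX_coeff, Polynomial.coeff_zero]
      exact hact x hx1 hx2 i
    · have h1 : psiX ψ (T (mulH x y)) = 0 := by
        ext i
        rw [psiX_coeff, Polynomial.coeff_zero]
        exact hact _ (mulH_mem hx1 hy) (by rw [hψ.mul, hx2, zero_mul]) i
      rw [hT.mul, psiX_mul hψ] at h1
      rcases mul_eq_zero.1 h1 with h2 | h2
      · exact h2
      · exfalso
        have h3 : (psiX ψ (T y)).coeff n = ψ y := by
          rw [psiX_coeff]
          have h4 : comp n (T y) = y := by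
            have h5 := hT.low n y hy
            ext p
            rw [comp_apply]
            split_ifs with h6
            · have h7 : (T y - y) p = 0 := by
                by_contra hne
                have := (Finsupp.mem_supported _ _).1 h5 (Finsupp.mem_support_iff.2 hne)
                change wt p + 2 ≤ n at this
                omega
              rw [Finsupp.sub_apply] at h7
              linarith
            · by_contra hne
              exact h6 (mem_Hk.1 hy p (Finsupp.mem_support_iff.2 fun h0 => hne h0.symm))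
          rw [h4]
        rw [h2, Polynomial.coeff_zero] at h3
        exact hy0 h3.symm
  -- conclusion
  ext p
  by_contra hne
  have h5 := hT.low j x hx1
  have h6 : (T x - x) p ≠ 0 := by
    rw [Finsupp.sub_apply]
    intro h0
    exact hne (by linarith)
  have h7 : wt p + 2 ≤ j := (Finsupp.mem_supported _ _).1 h5 (Finsupp.mem_support_iff.2 h6)
  have h8 : comp (wt p) (T x) ∈ Ik ψ (wt p) := by
    refine mem_Ik.2 ⟨comp_mem _ _, ?_⟩
    rw [← psiX_coeff, hzero, Polynomial.coeff_zero]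
  rw [hlow _ h7, Submodule.mem_bot] at h8
  have h9 : comp (wt p) (T x) p = T x p := by rw [comp_apply, if_pos rfl]
  rw [h8] at h9
  have h10 : x p = 0 := by
    by_contra h0
    have := mem_Hk.1 hx1 p (Finsupp.mem_support_iff.2 h0)
    omega
  exact hne (by rw [← h9, h10]; rfl)

/-- The same for derivations. -/
lemma killed_of_acts (hψ : IsSurjection Z ψ) {T : HH →ₗ[ℚ] HH} {d : ℕ} (hT : IsDer T d) {k j : ℕ}
    {x : HH} (hact : Acts ψ T k) (hx : x ∈ Ik ψ j) (hlow : ∀ i, i + 2 ≤ j → Ik ψ i = ⊥)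
    (hjk : j = k ∨ ∃ n, 2 ≤ n ∧ j + n = k ∧ ∃ y ∈ Hk n, ψ y ≠ 0) : T x = 0 := by
  obtain ⟨hx1, hx2⟩ := mem_Ik.1 hx
  by_cases hjd : j < d
  · exact hT.zero j hjd x hx1
  obtain ⟨i, rfl⟩ : ∃ i, j = i + d := ⟨j - d, by omega⟩
  have hTx : T x ∈ Hk i := hT.low i x hx1
  have hψx : ψ (T x) = 0 := by
    rcases hjk with rfl | ⟨n, hn, rfl, y, hy, hy0⟩
    · have := hact x hx1 hx2 i
      rwa [comp_same hTx] at this
    · have h1 := hact (mulH x y) (mulH_mem hx1 hy) (by rw [hψ.mul, hx2, zero_mul]) (i + n)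
      have h2 : T (mulH x y) ∈ Hk (i + n) := by
        refine hT.low _ _ ?_
        have := mulH_mem hx1 hy
        rwa [show i + n + d = i + d + n by omega]
      rw [comp_same h2, hT.mul, map_add, hψ.mul, hψ.mul, hx2, zero_mul, add_zero] at h1
      exact (mul_eq_zero.1 h1).resolve_right hy0
  have h3 : T x ∈ Ik ψ i := mem_Ik.2 ⟨hTx, hψx⟩
  have := hT.two
  rw [hlow i (by omega), Submodule.mem_bot] at h3
  exact h3

/-- No relations in weight `k` iff the dimension is the conjectured one. -/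
lemma dim_iff (hψ : IsSurjection Z ψ) (k : ℕ) : finrank ℚ (Z k) = D k ↔ Ik ψ k = ⊥ := by
  have h1 := hψ.add_eq k
  constructor
  · intro h
    have h2 : finrank ℚ (Ik ψ k) = 0 := by
      change ii ψ k = 0
      omega
    exact Submodule.finrank_eq_zero.1 h2
  · intro h
    unfold ii at h1
    rw [h, finrank_bot] at h1
    omega

/-- No relations in weight `k` implies no relations in the weights `j ≤ k`, `j ≠ k - 1`. -/
lemma no_rel_below (hψ : IsSurjection Z ψ) {k j : ℕ} (hk : Ik ψ k = ⊥) (hj : j ≤ k)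
    (hj1 : j + 1 ≠ k) : Ik ψ j = ⊥ := by
  by_contra hne
  obtain ⟨r, hr, hr0⟩ := Submodule.exists_mem_ne_zero_of_ne_bot hne
  have h := gap_rel hψ hr hr0 (k - j)
  have hD := D_pos (k := k - j) (by omega)
  rw [Nat.sub_add_cancel hj] at h
  have := (dim_iff hψ k).2 hk
  omega

/-- **Families of operators.** -/
theorem family (hψ : IsSurjection Z ψ) (hZ : ∀ n, 2 ≤ n → ∃ y ∈ Hk n, ψ y ≠ 0) {k : ℕ}
    (A B : Set (HH →ₗ[ℚ] HH)) (hA : ∀ T ∈ A, IsUni T ∧ Acts ψ T k)
    (hB : ∀ T ∈ B, (∃ d, IsDer T d) ∧ Acts ψ T k) :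
    finrank ℚ (Z k) = D k ↔ ∀ j, j ≤ k → j + 1 ≠ k → ∀ x ∈ Hk j, (∀ T ∈ A, T x = x) →
      (∀ T ∈ B, T x = 0) → ψ x = 0 → x = 0 := by
  constructor
  · intro h j hj hj1 x hx _ _ hx0
    have h1 := no_rel_below hψ ((dim_iff hψ k).1 h) hj hj1
    have h2 : x ∈ Ik ψ j := mem_Ik.2 ⟨hx, hx0⟩
    rwa [h1, Submodule.mem_bot] at h2
  · intro h
    rw [dim_iff hψ]
    by_contra hne
    obtain ⟨j, x, hj, hj1, hx, hx0, hlow, hjk⟩ := exists_low hZ hne
    obtain ⟨hx1, hx2⟩ := mem_Ik.1 hx
    have hjk' := hjk.imp_right And.right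
    exact hx0 (h j hj hj1 x hx1 (fun T hT => fixed_of_acts hψ (hA T hT).1 (hA T hT).2 hx hlow hjk')
      (fun T hT => by
        obtain ⟨⟨d, hd⟩, hact⟩ := hB T hT
        exact killed_of_acts hψ hd hact hx hlow hjk') hx2)

end Pool.Agent.J4.H88.MZ
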