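import Pool.Agent.J4.H88.MZ.Op

/-!
# Fixed vectors, existence of characters, and the theorems
-/

set_option autoImplicit false

namespace Pool.Agent.J4.H88.MZ

open Pool.Agent.J4.H42.MZ Module

variable {χ : List ℕ → ℚ}

lemma dec_self (w : List ℕ) (F : List ℕ → ℚ) :
    (SL (dec w) fun d => F d.1 * (if d.2 = w then 1 else 0)) = F [] := by
  cases w with
  | nil => rw [dec_nil, SL_one]; simp
  | cons a w =>
    rw [dec_cons, SL_cons, SL_map, SL_zero]
    · simp
    · intro d hd
      have h := congrArg List.length (mem_dec hd)
      have h2 : d.2 ≠ a :: w := by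
        intro h'
        rw [List.length_append, h', List.length_cons] at h
        omega
      simp [h2]

lemma sum_singles (f : HH) : f = ∑ p ∈ f.support, f p • Finsupp.single p (1 : ℚ) := by
  conv_lhs => rw [← Finsupp.sum_single f]
  rw [Finsupp.sum]
  refine Finset.sum_congr rfl fun p _ => ?_
  rw [Finsupp.smul_single, smul_eq_mul, mul_one]

lemma sig_coeff (f : HH) (m : ℕ) (w : List ℕ) : sig χ f (m, w) =
    ∑ p ∈ f.support, f p * SL (dec p.2) fun d =>
      χ d.1 * (if (p.1, d.2) = (m, w) then 1 else 0) := by
  conv_lhs => rw [sum_singles f]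
  rw [map_sum, Finsupp.finsetSum_apply]
  refine Finset.sum_congr rfl fun p _ => ?_
  rw [map_smul, Finsupp.smul_apply, smul_eq_mul, sig_single]
  congr 1
  have h := map_SL (Finsupp.lapply (m, w) : HH →ₗ[ℚ] ℚ) (dec p.2)
    fun d => χ d.1 • Finsupp.single (p.1, d.2) (1 : ℚ)
  simp only [Finsupp.lapply_apply] at h
  rw [h]
  refine SL_congr fun d _ => ?_
  rw [Finsupp.smul_apply, smul_eq_mul, Finsupp.single_apply]

lemma wl_eq_zero {u : List ℕ} (h : wl u = 0) : u = [] := by
  cases u with
  | nil => rfl
  | cons a u => rw [wl_cons] at h; omega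

lemma wl_append (u v : List ℕ) : wl (u ++ v) = wl u + wl v := by
  unfold wl
  rw [List.map_append, List.sum_append]

/-- The fixed vectors of a Galois automorphism with nonzero coordinates. -/
lemma fix_words {j : ℕ} {x : HH} (hx : x ∈ Hk j) (hfix : sig χ x = x)
    (hne : ∀ a, 2 * a + 3 ≤ j → χ [a] ≠ 0) : ∀ a m w, x (m, a :: w) = 0 := by
  intro a
  induction a using Nat.strong_induction_on with
  | _ a ih =>
    intro m w
    by_contra h0
    have hwt := mem_Hk.1 hx _ (Finsupp.mem_support_iff.2 h0)
    unfold wt at hwt
    simp only [wl_cons] at hwt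
    have h1 : x (m, w) = 0 := by
      by_contra h
      have h3 := mem_Hk.1 hx _ (Finsupp.mem_support_iff.2 h)
      unfold wt at h3
      simp only at h3
      omega
    have h2 := sig_coeff (χ := χ) x m w
    rw [hfix, h1, Finset.sum_eq_single (m, a :: w)] at h2
    · have h4 : (SL (dec (a :: w)) fun d => χ d.1 * (if (m, d.2) = (m, w) then 1 else 0)) =
          χ [a] := by
        rw [dec_cons, SL_cons, SL_map]
        have h5 := dec_self w fun u => χ (a :: u)
        have h6 : (SL (dec w) fun d : List ℕ × List ℕ =>
            χ (a :: d.1) * (if (m, d.2) = (m, w) then 1 else 0)) = χ [a] := by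
          rw [← h5]
          refine SL_congr fun d _ => ?_
          simp
        rw [h6]
        have h7 : (a :: w) ≠ w := by
          intro h'
          have := congrArg List.length h'
          simp at this
        simp [h7]
      simp only at h2
      rw [h4] at h2
      have h8 := hne a (by omega)
      exact (mul_ne_zero h0 h8) h2.symm
    · intro p hp hpne
      rw [SL_zero, mul_zero]
      intro d hd
      split_ifs with h3
      · exfalso
        have h4 := mem_dec hd
        rw [Prod.mk.injEq] at h3
        have h5 := mem_Hk.1 hx p hp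
        obtain ⟨n, v⟩ := p
        obtain ⟨u, v'⟩ := d
        simp only at h3 h4 h5
        obtain ⟨rfl, rfl⟩ := h3
        subst h4
        unfold wt at h5
        simp only [wl_append] at h5
        cases u with
        | nil => simp at h5; omega
        | cons b u =>
          rw [wl_cons] at h5
          by_cases hb : b < a
          · have h6 := ih b hb n (u ++ v')
            rw [Finsupp.mem_support_iff] at hp
            exact hp h6
          · have h7 : b = a := by omega
            have h8 : u = [] := wl_eq_zero (by omega)
            subst h7 h8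
            exact hpne rfl
      · rw [mul_zero]
    · intro hno
      exact absurd (Finsupp.mem_support_iff.2 h0) hno

variable {Z : ℕ → Submodule ℚ ℝ} {ψ : HH →ₗ[ℚ] ℝ}

lemma two_ne (hZ : ∀ n, 2 ≤ n → ∃ y ∈ Hk n, ψ y ≠ 0) : ψ (Finsupp.single (1, []) 1) ≠ 0 := by
  obtain ⟨y, hy, hy0⟩ := hZ 2 le_rfl
  intro h0
  apply hy0
  rw [sum_singles y, map_sum]
  refine Finset.sum_eq_zero fun p hp => ?_
  have h := mem_Hk.1 hy p hp
  obtain ⟨m, w⟩ := p
  unfold wt at h
  simp only at h
  cases w with
  | nil =>
    rw [wl_nil] at h
    have : m = 1 := by omega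
    subst this
    rw [map_smul, h0, smul_zero]
  | cons a w => rw [wl_cons] at h; omega

lemma pow_ne (hψ : IsSurjection Z ψ) (hZ : ∀ n, 2 ≤ n → ∃ y ∈ Hk n, ψ y ≠ 0) (m : ℕ) :
    ψ (Finsupp.single (m, []) 1) ≠ 0 := by
  induction m with
  | zero => rw [hψ.one]; exact one_ne_zero
  | succ m ih =>
    have h : Finsupp.single ((m + 1, []) : ℕ × List ℕ) (1 : ℚ) =
        mulH (Finsupp.single (m, []) 1) (Finsupp.single (1, []) 1) := by
      rw [single_mul]
      simp [shuf_nil_left]
    rw [h, hψ.mul]
    exact mul_ne_zero ih (two_ne hZ)

/-- an element without nonempty words which is in the kernel is zero -/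
lemma zero_of_words (hψ : IsSurjection Z ψ) (hZ : ∀ n, 2 ≤ n → ∃ y ∈ Hk n, ψ y ≠ 0) {j : ℕ}
    {x : HH} (hx : x ∈ Hk j) (hw : ∀ a m w, x (m, a :: w) = 0) (h0 : ψ x = 0) : x = 0 := by
  by_contra hne
  obtain ⟨⟨m, v⟩, hp⟩ := Finsupp.support_nonempty_iff.2 hne
  have hnil : ∀ p ∈ x.support, p = (m, []) := by
    have h1 : ∀ p ∈ x.support, p.2 = [] ∧ 2 * p.1 = j := by
      intro p hp
      have h := mem_Hk.1 hx p hp
      obtain ⟨n, w⟩ := p
      cases w with
      | nil => unfold wt at h; simp at h; exact ⟨rfl, h⟩
      | cons a w => exact absurd (hw a n w) (Finsupp.mem_support_iff.1 hp)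
    intro p hp'
    have h2 := h1 p hp'
    have h3 := h1 _ hp
    obtain ⟨n, w⟩ := p
    simp only at h2 h3
    rw [h2.1]
    congr 1
    omega
  have hx' : x = x (m, []) • Finsupp.single (m, []) (1 : ℚ) := by
    ext p
    rw [Finsupp.smul_apply, smul_eq_mul, Finsupp.single_apply]
    split_ifs with h
    · rw [h, mul_one]
    · rw [mul_zero]
      by_contra h'
      exact h (hnil p (Finsupp.mem_support_iff.2 h')).symm
  rw [hx', map_smul, smul_eq_zero] at h0
  rcases h0 with h0 | h0
  · rw [h0, zero_smul] at hx'
    exact hne hx'
  · exact pow_ne hψ hZ m h0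

/-! ### characters exist -/

/-- the character with prescribed values on the letters which is the exponential of a letter sum -/
noncomputable def expc (c : ℕ → ℚ) (w : List ℕ) : ℚ := (w.map c).prod / (w.length.factorial : ℚ)

lemma shuf_prod (c : ℕ → ℚ) (u v : List ℕ) : ∀ w ∈ shuf u v,
    (w.map c).prod = (u.map c).prod * (v.map c).prod ∧ w.length = u.length + v.length := by
  induction u generalizing v with
  | nil =>
    intro w hw
    rw [shuf_nil_left, List.mem_singleton] at hw
    simp [hw]
  | cons a u ihu =>
    induction v with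
    | nil =>
      intro w hw
      rw [shuf_nil_right, List.mem_singleton] at hw
      simp [hw]
    | cons b v ihv =>
      intro w hw
      rw [shuf_cons, List.mem_append, List.mem_map, List.mem_map] at hw
      rcases hw with ⟨w0, h0, rfl⟩ | ⟨w0, h0, rfl⟩
      · obtain ⟨h1, h2⟩ := ihu _ _ h0
        rw [List.map_cons, List.prod_cons, h1, List.map_cons (l := u), List.prod_cons,
          List.length_cons, h2, List.length_cons]
        constructor
        · ring
        · simp only [List.length_cons]; omega
      · obtain ⟨h1, h2⟩ := ihv _ h0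
        rw [List.map_cons, List.prod_cons, h1, List.map_cons (l := v), List.prod_cons,
          List.length_cons, h2]
        constructor
        · ring
        · simp only [List.length_cons]; omega

lemma shuf_length (u v : List ℕ) :
    (shuf u v).length = (u.length + v.length).choose u.length := by
  induction u generalizing v with
  | nil => simp [shuf_nil_left]
  | cons a u ihu =>
    induction v with
    | nil => simp [shuf_nil_right]
    | cons b v ihv =>
      rw [shuf_cons, List.length_append, List.length_map, List.length_map, ihu, ihv]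
      simp only [List.length_cons]
      rw [show u.length + 1 + (v.length + 1) = (u.length + (v.length + 1)) + 1 by omega,
        Nat.choose_succ_succ, show u.length + 1 + v.length = u.length + (v.length + 1) by omega]

lemma expc_char (c : ℕ → ℚ) : IsChar (expc c) := by
  constructor
  · simp [expc]
  · intro u v
    have h1 : (shuf u v).map (expc c) = (shuf u v).map fun _ =>
        (u.map c).prod * (v.map c).prod / ((u.length + v.length).factorial : ℚ) := by
      refine List.map_congr_left fun w hw => ?_
      obtain ⟨h2, h3⟩ := shuf_prod c u v w hw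
      unfold expc
      rw [h2, h3]
    rw [h1, List.map_const', List.sum_replicate, shuf_length, nsmul_eq_mul]
    unfold expc
    have h4 := Nat.add_choose_mul_factorial_mul_factorial v.length u.length
    have h5 : (((u.length + v.length).choose u.length : ℕ) : ℚ) * u.length.factorial *
        v.length.factorial = ((u.length + v.length).factorial : ℚ) := by
      rw [add_comm v.length u.length] at h4
      rw [mul_right_comm]
      exact_mod_cast h4
    have h6 : (u.length.factorial : ℚ) ≠ 0 := by exact_mod_cast Nat.factorial_ne_zero _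
    have h7 : (v.length.factorial : ℚ) ≠ 0 := by exact_mod_cast Nat.factorial_ne_zero _
    have h8 : ((u.length + v.length).factorial : ℚ) ≠ 0 := by
      exact_mod_cast Nat.factorial_ne_zero _
    rw [mul_div_assoc', div_mul_div_comm, div_eq_div_iff h8 (mul_ne_zero h6 h7), ← h5]
    ring

lemma expc_one (c : ℕ → ℚ) (a : ℕ) : expc c [a] = c a := by
  simp [expc]

end Pool.Agent.J4.H88.MZ
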