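import Pool.Agent.J4.H88.MZ.Three

/-!
# The theorems
-/

set_option autoImplicit false

namespace Pool.Agent.J4.H88.MZ

open Pool.Agent.J4.H42.MZ Module

variable {Z : ℕ → Submodule ℚ ℝ} {ψ : HH →ₗ[ℚ] ℝ} {χ : List ℕ → ℚ}

lemma acts_of_bot {T : HH →ₗ[ℚ] HH} {k : ℕ} (h : Ik ψ k = ⊥) : Acts ψ T k := by
  intro r hr hr0 j
  have h1 : r ∈ Ik ψ k := mem_Ik.2 ⟨hr, hr0⟩
  rw [h, Submodule.mem_bot] at h1
  rw [h1, map_zero, map_zero, map_zero]

/-- families, infinitely many weights -/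
theorem family_inf (hψ : IsSurjection Z ψ) (hZ : ∀ n, 2 ≤ n → ∃ y ∈ Hk n, ψ y ≠ 0)
    (A B : Set (HH →ₗ[ℚ] HH)) (hA : ∀ T ∈ A, IsUni T) (hB : ∀ T ∈ B, ∃ d, IsDer T d)
    (hinf : {k | (∀ T ∈ A, Acts ψ T k) ∧ ∀ T ∈ B, Acts ψ T k}.Infinite) :
    GradedIso Z ↔ ∀ j, ∀ x ∈ Hk j, (∀ T ∈ A, T x = x) → (∀ T ∈ B, T x = 0) → ψ x = 0 → x = 0 := by
  constructor
  · intro hiso j x hx _ _ hx0
    have h4 := (dim_iff hψ j).1 (dims_of_iso hiso j)
    have h5 : x ∈ Ik ψ j := mem_Ik.2 ⟨hx, hx0⟩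
    rwa [h4, Submodule.mem_bot] at h5
  · intro h
    rw [iso_iff_infinite hψ]
    refine hinf.mono fun k hk => ?_
    exact (family hψ hZ A B (fun T hT => ⟨hA T hT, hk.1 T hT⟩)
      (fun T hT => ⟨hB T hT, hk.2 T hT⟩)).2 fun j _ _ x hx h1 h2 h3 => h j x hx h1 h2 h3

/-- one weight, one automorphism -/
theorem one_weight (hψ : IsSurjection Z ψ) (hZ : ∀ n, 2 ≤ n → ∃ y ∈ Hk n, ψ y ≠ 0)
    (hχ : IsChar χ) {k e : ℕ} (hne : ∀ a, 2 * a + 3 ≤ e → χ [a] ≠ 0) (hek : e = k ∨ e + 2 ≤ k)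
    (hact : Acts ψ (sig χ) k) : finrank ℚ (Z e) = D e := by
  rw [dim_iff hψ]
  by_contra hne'
  have hk : Ik ψ k ≠ ⊥ := by
    rcases hek with rfl | hek
    · exact hne'
    · intro h
      exact hne' (no_rel_below hψ h (by omega) (by omega))
  obtain ⟨j, x, hj, hj1, hx, hx0, hlow, hjk⟩ := exists_low hZ hk
  have hje : j ≤ e := by
    rcases hek with rfl | hek
    · exact hj
    · rcases hjk with rfl | ⟨h1, _⟩
      · exact absurd (hlow e hek) hne'
      · by_contra hlt
        exact hne' (h1 e (by omega))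
  obtain ⟨hx1, hx2⟩ := mem_Ik.1 hx
  have hfix := fixed_of_acts hψ (sig_uni hχ) hact hx hlow (hjk.imp_right And.right)
  exact hx0 (zero_of_words hψ hZ hx1
    (fix_words hx1 hfix fun a ha => hne a (by omega)) hx2)

theorem weight_iff (hψ : IsSurjection Z ψ) (hZ : ∀ n, 2 ≤ n → ∃ y ∈ Hk n, ψ y ≠ 0)
    (hχ : IsChar χ) {k : ℕ} (hne : ∀ a, 2 * a + 3 ≤ k → χ [a] ≠ 0) :
    finrank ℚ (Z k) = D k ↔ Acts ψ (sig χ) k :=
  ⟨fun h => acts_of_bot ((dim_iff hψ k).1 h), fun h => one_weight hψ hZ hχ hne (Or.inl rfl) h⟩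

theorem iso_iff_sig (hψ : IsSurjection Z ψ) (hZ : ∀ n, 2 ≤ n → ∃ y ∈ Hk n, ψ y ≠ 0)
    (hχ : IsChar χ) (hne : ∀ a, χ [a] ≠ 0) :
    GradedIso Z ↔ {k | Acts ψ (sig χ) k}.Infinite := by
  rw [iso_iff_infinite hψ]
  have h : {k | finrank ℚ (Z k) = D k} = {k | Acts ψ (sig χ) k} := by
    ext k
    exact weight_iff hψ hZ hχ fun a _ => hne a
  rw [h]

/-- one weight, the derivations -/
theorem weight_iff_der (hψ : IsSurjection Z ψ) (hZ : ∀ n, 2 ≤ n → ∃ y ∈ Hk n, ψ y ≠ 0) (k : ℕ) :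
    finrank ℚ (Z k) = D k ↔ ∀ a, Acts ψ (der a) k := by
  constructor
  · intro h a
    exact acts_of_bot ((dim_iff hψ k).1 h)
  · intro h
    refine (family hψ hZ ∅ (Set.range der) (fun T hT => absurd hT (Set.notMem_empty T)) ?_).2 ?_
    · rintro T ⟨a, rfl⟩
      exact ⟨⟨_, der_der a⟩, h a⟩
    · intro j _ _ x hx _ hB hx0
      refine zero_of_words hψ hZ hx (fun a m w => ?_) hx0
      rw [← der_apply, hB (der a) ⟨a, rfl⟩]
      rfl

theorem iso_iff_der (hψ : IsSurjection Z ψ) (hZ : ∀ n, 2 ≤ n → ∃ y ∈ Hk n, ψ y ≠ 0) :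
    GradedIso Z ↔ {k | ∀ a, Acts ψ (der a) k}.Infinite := by
  rw [iso_iff_infinite hψ]
  have h : {k | finrank ℚ (Z k) = D k} = {k | ∀ a, Acts ψ (der a) k} := by
    ext k
    exact weight_iff_der hψ hZ k
  rw [h]

/-- the elements which contain only the letter `f_3` -/
def OnlyThree (x : HH) : Prop := ∀ p ∈ x.support, p.2 = List.replicate p.2.length 0

/-- one weight, the Lie ideal -/
theorem weight_iff_three (hψ : IsSurjection Z ψ) (hZ : ∀ n, 2 ≤ n → ∃ y ∈ Hk n, ψ y ≠ 0) {k : ℕ}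
    (h : ∀ i a, 1 ≤ a → Acts ψ (adn i a) k) : finrank ℚ (Z k) = D k ↔
      ∀ j, j ≤ k → j + 1 ≠ k → ∀ x ∈ Hk j, OnlyThree x → ψ x = 0 → x = 0 := by
  constructor
  · intro hk j hj hj1 x hx _ hx0
    have h1 := no_rel_below hψ ((dim_iff hψ k).1 hk) hj hj1
    have h2 : x ∈ Ik ψ j := mem_Ik.2 ⟨hx, hx0⟩
    rwa [h1, Submodule.mem_bot] at h2
  · intro hk
    refine (family hψ hZ ∅ {T | ∃ i a, 1 ≤ a ∧ T = adn i a}
      (fun T hT => absurd hT (Set.notMem_empty T)) ?_).2 ?_
    · rintro T ⟨i, a, ha, rfl⟩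
      exact ⟨adn_der i a, h i a ha⟩
    · intro j hj hj1 x hx _ hB hx0
      exact hk j hj hj1 x hx (fun p hp => supp_zero (fun i a ha => hB _ ⟨i, a, ha, rfl⟩) hp) hx0

/-! ### transcendence -/

lemma trans_iff (hψ : IsSurjection Z ψ) {r2 r3 : ℚ} (h2 : r2 ≠ 0) (h3 : r3 ≠ 0) {z : ℝ}
    (e2 : ψ (Finsupp.single (1, []) 1) = r2 * Real.pi ^ 2)
    (e3 : ψ (Finsupp.single (0, [0]) 1) = r3 * z) :
    (∀ j, ∀ x ∈ Hk j, OnlyThree x → ψ x = 0 → x = 0) ↔
      Transcendental ℚ (z / Real.pi ^ 3) := by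
  have hpi : Real.pi ≠ 0 := Real.pi_ne_zero
  have hval : ∀ m b, ψ (Finsupp.single (m, List.replicate b 0) 1) =
      ((r2 ^ m * r3 ^ b / (b.factorial : ℚ) : ℚ) : ℝ) * (Real.pi ^ (2 * m + 3 * b) *
        (z / Real.pi ^ 3) ^ b) := by
    intro m b
    rw [psi_zeros hψ, e2, e3]
    push_cast
    rw [pow_add, pow_mul, pow_mul, div_pow]
    have h4 : (Real.pi ^ 3) ^ b ≠ 0 := by positivity
    field_simp
    ring
  constructor
  · intro h halg
    have halg2 : IsAlgebraic ℚ ((z / Real.pi ^ 3) ^ 2) := halg.pow 2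
    obtain ⟨P, hP0, hP⟩ := halg2
    set n := P.natDegree with hn
    set c : ℕ → ℚ := fun i => P.coeff i * ((2 * i).factorial : ℚ) /
      (r2 ^ (3 * (n - i)) * r3 ^ (2 * i)) with hc
    set x : HH := ∑ i ∈ Finset.range (n + 1),
      c i • Finsupp.single (3 * (n - i), List.replicate (2 * i) 0) (1 : ℚ) with hx
    have hmem : x ∈ Finsupp.supported ℚ ℚ
        {p : ℕ × List ℕ | wt p = 6 * n ∧ p.2 = List.replicate p.2.length 0} := by
      refine Submodule.sum_mem _ fun i hi => Submodule.smul_mem _ _ ?_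
      refine Finsupp.single_mem_supported _ _ ⟨?_, by simp⟩
      have h5 := Finset.mem_range.1 hi
      unfold wt wl
      simp only [List.map_replicate, List.sum_replicate, smul_eq_mul]
      omega
    have hmem' := (Finsupp.mem_supported _ _).1 hmem
    have hx1 : x ∈ Hk (6 * n) := by
      rw [mem_Hk]
      intro p hp
      exact (hmem' hp).1
    have hx2 : OnlyThree x := fun p hp => (hmem' hp).2
    have hx3 : ψ x = 0 := by
      have h6 : ψ x = Real.pi ^ (6 * n) * (Polynomial.aeval ((z / Real.pi ^ 3) ^ 2) P) := by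
        rw [Polynomial.aeval_eq_sum_range, Finset.mul_sum, hx, map_sum]
        refine Finset.sum_congr rfl fun i hi => ?_
        have h5 := Finset.mem_range.1 hi
        rw [map_smul, hval, Rat.smul_def, Rat.smul_def, hc]
        have e1 : 2 * (3 * (n - i)) + 3 * (2 * i) = 6 * n := by omega
        rw [e1, ← pow_mul]
        have h7 : (r2 : ℝ) ≠ 0 := by exact_mod_cast h2
        have h8 : (r3 : ℝ) ≠ 0 := by exact_mod_cast h3
        have h9 : (((2 * i).factorial : ℕ) : ℝ) ≠ 0 := by positivity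
        push_cast
        field_simp
      rw [h6, hP, mul_zero]
    have hx4 := h _ x hx1 hx2 hx3
    have h10 : x (0, List.replicate (2 * n) 0) = c n := by
      rw [hx, Finsupp.finsetSum_apply, Finset.sum_eq_single n]
      · rw [Finsupp.smul_apply, smul_eq_mul, Nat.sub_self, mul_zero, Finsupp.single_eq_same,
          mul_one]
      · intro i hi hin
        rw [Finsupp.smul_apply, Finsupp.single_apply, if_neg, smul_zero]
        intro heq
        have := congrArg (fun q : ℕ × List ℕ => q.2.length) heq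
        simp only [List.length_replicate] at this
        omega
      · intro hno
        exact absurd (Finset.self_mem_range_succ n) hno
    rw [hx4] at h10
    have h11 : c n ≠ 0 := by
      rw [hc]
      refine div_ne_zero (mul_ne_zero ?_ ?_) (mul_ne_zero (pow_ne_zero _ h2) (pow_ne_zero _ h3))
      · rw [hn, Polynomial.coeff_natDegree]
        exact Polynomial.leadingCoeff_ne_zero.2 hP0
      · exact_mod_cast Nat.factorial_ne_zero _
    exact h11 h10.symm
  · intro htr j x hx hthree hx0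
    by_contra hne
    obtain ⟨p0, hp0⟩ := Finsupp.support_nonempty_iff.2 hne
    set c : ℕ × List ℕ → ℚ := fun p =>
      x p * (r2 ^ p.1 * r3 ^ p.2.length / (p.2.length.factorial : ℚ)) with hc
    set P : Polynomial ℚ := ∑ p ∈ x.support, Polynomial.monomial p.2.length (c p) with hP
    have h1 : Real.pi ^ j * Polynomial.aeval (z / Real.pi ^ 3) P = ψ x := by
      rw [hP, map_sum, Finset.mul_sum]
      conv_rhs => rw [sum_singles x]
      rw [map_sum]
      refine Finset.sum_congr rfl fun p hp => ?_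
      have h4 := hthree p hp
      have h5 := mem_Hk.1 hx p hp
      have h6 : 2 * p.1 + 3 * p.2.length = j := by
        rw [← h5]
        unfold wt wl
        conv_rhs => rw [h4]
        simp only [List.map_replicate, List.sum_replicate, smul_eq_mul]
        omega
      have h7 : ψ (Finsupp.single p 1) = ((r2 ^ p.1 * r3 ^ p.2.length /
          (p.2.length.factorial : ℚ) : ℚ) : ℝ) * (Real.pi ^ j *
            (z / Real.pi ^ 3) ^ p.2.length) := by
        have h8 : p = (p.1, List.replicate p.2.length 0) := Prod.ext rfl h4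
        conv_lhs => rw [h8]
        rw [hval, h6]
      rw [map_smul, h7, Polynomial.aeval_monomial, Rat.smul_def, hc]
      simp only [eq_ratCast]
      push_cast
      ring
    have h2' : P = 0 := by
      rw [transcendental_iff] at htr
      apply htr
      rw [hx0] at h1
      exact (mul_eq_zero.1 h1).resolve_left (pow_ne_zero _ hpi)
    have h3' : P.coeff p0.2.length = c p0 := by
      rw [hP, Polynomial.finsetSum_coeff, Finset.sum_eq_single p0]
      · rw [Polynomial.coeff_monomial, if_pos rfl]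
      · intro p hp hpne
        rw [Polynomial.coeff_monomial, if_neg]
        intro hlen
        apply hpne
        have h4 := hthree p hp
        have h5 := hthree p0 hp0
        have h6 := mem_Hk.1 hx p hp
        have h7 := mem_Hk.1 hx p0 hp0
        have h8 : p.2 = p0.2 := by rw [h4, h5, hlen]
        refine Prod.ext ?_ h8
        unfold wt at h6 h7
        rw [h8] at h6
        omega
      · intro hno
        exact absurd hp0 hno
    rw [h2', Polynomial.coeff_zero] at h3'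
    have h4' : c p0 ≠ 0 := by
      rw [hc]
      refine mul_ne_zero (Finsupp.mem_support_iff.1 hp0) (div_ne_zero
        (mul_ne_zero (pow_ne_zero _ h2) (pow_ne_zero _ h3)) ?_)
      exact_mod_cast Nat.factorial_ne_zero _
    exact h4' h3'.symm

/-- the elements of weight two and three -/
lemma ratio (hψ : IsSurjection Z ψ) {w : ℕ} {p : ℕ × List ℕ} (hp : ∀ q, wt q = w → q = p) {z : ℝ}
    (hz : z ∈ Z w) (hz0 : z ≠ 0) : ∃ r : ℚ, r ≠ 0 ∧ ψ (Finsupp.single p 1) = r * z := by
  rw [← hψ.map w, Submodule.mem_map] at hz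
  obtain ⟨y, hy, rfl⟩ := hz
  have hy' : y = y p • Finsupp.single p (1 : ℚ) := by
    ext q
    rw [Finsupp.smul_apply, smul_eq_mul, Finsupp.single_apply]
    split_ifs with h
    · rw [h, mul_one]
    · rw [mul_zero]
      by_contra h'
      exact h (hp q (mem_Hk.1 hy q (Finsupp.mem_support_iff.2 h'))).symm
  have h0 : y p ≠ 0 := by
    intro h0
    rw [h0, zero_smul] at hy'
    rw [hy', map_zero] at hz0
    exact hz0 rfl
  refine ⟨(y p)⁻¹, inv_ne_zero h0, ?_⟩
  have h1 : ψ y = (y p : ℝ) * ψ (Finsupp.single p 1) := by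
    conv_lhs => rw [hy', map_smul, Rat.smul_def]
  rw [h1]
  have h2 : ((y p : ℚ) : ℝ) ≠ 0 := by exact_mod_cast h0
  push_cast
  field_simp

lemma uniq_two (q : ℕ × List ℕ) (h : wt q = 2) : q = (1, []) := by
  obtain ⟨m, w⟩ := q
  unfold wt at h
  cases w with
  | nil => simp at h; simp [h]
  | cons a w => simp only [wl_cons] at h; omega

lemma uniq_three (q : ℕ × List ℕ) (h : wt q = 3) : q = (0, [0]) := by
  obtain ⟨m, w⟩ := q
  unfold wt at h
  cases w with
  | nil => simp at h; omega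
  | cons a w =>
    simp only [wl_cons] at h
    have h1 : w = [] := wl_eq_zero (by omega)
    have h2 : a = 0 := by omega
    have h3 : m = 0 := by omega
    rw [h1, h2, h3]

end Pool.Agent.J4.H88.MZ
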