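import Pool.Agent.J4.H88.MZ.Main

/-!
# Normalised values: dividing by powers of `π`
-/

set_option autoImplicit false

namespace Pool.Agent.J4.H88.MZ

open Pool.Agent.J4.H42.MZ Module Filter Topology

variable {Z : ℕ → Submodule ℚ ℝ} {ψ : HH →ₗ[ℚ] ℝ}

/-- the normalised evaluation: weight `k` is divided by `π ^ k` -/
noncomputable def phi (ψ : HH →ₗ[ℚ] ℝ) : HH →ₗ[ℚ] ℝ :=
  Finsupp.linearCombination ℚ fun p => ψ (Finsupp.single p 1) / Real.pi ^ wt p

lemma phi_single (p : ℕ × List ℕ) :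
    phi ψ (Finsupp.single p 1) = ψ (Finsupp.single p 1) / Real.pi ^ wt p := by
  unfold phi
  rw [Finsupp.linearCombination_single, one_smul]

/-- evaluation of polynomials at `1 / π` -/
noncomputable def evp : Polynomial ℝ →ₗ[ℚ] ℝ := (Polynomial.leval (Real.pi)⁻¹).restrictScalars ℚ

lemma phi_eq (f : HH) : phi ψ f = (psiX ψ f).eval (Real.pi)⁻¹ := by
  have h : phi ψ = evp.comp (psiX ψ) := by
    refine Finsupp.lhom_ext' fun p => LinearMap.ext_ring ?_
    change phi ψ (Finsupp.single p 1) = (psiX ψ (Finsupp.single p 1)).eval _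
    rw [phi_single, psiX_single, Polynomial.eval_monomial, inv_pow, div_eq_mul_inv]
  exact congrArg (fun L => L f) h

lemma phi_mul (hψ : IsSurjection Z ψ) (f g : HH) : phi ψ (mulH f g) = phi ψ f * phi ψ g := by
  rw [phi_eq, phi_eq, phi_eq, psiX_mul hψ, Polynomial.eval_mul]

lemma phi_Hk {k : ℕ} {f : HH} (hf : f ∈ Hk k) : phi ψ f = ψ f / Real.pi ^ k := by
  have h1 : phi ψ f = ∑ p ∈ f.support, f p • (ψ (Finsupp.single p 1) / Real.pi ^ k) := by
    conv_lhs => rw [sum_singles f]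
    rw [map_sum]
    refine Finset.sum_congr rfl fun p hp => ?_
    rw [map_smul, phi_single, mem_Hk.1 hf p hp]
  have h2 : ψ f = ∑ p ∈ f.support, f p • ψ (Finsupp.single p 1) := by
    conv_lhs => rw [sum_singles f]
    rw [map_sum]
    exact Finset.sum_congr rfl fun p hp => map_smul _ _ _
  rw [h1, h2, Finset.sum_div]
  refine Finset.sum_congr rfl fun p _ => ?_
  rw [smul_div_assoc]

lemma phi_zero_iff {k : ℕ} {f : HH} (hf : f ∈ Hk k) : phi ψ f = 0 ↔ ψ f = 0 := by
  rw [phi_Hk hf, div_eq_zero_iff]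
  exact ⟨fun h => h.resolve_right (pow_ne_zero _ Real.pi_ne_zero), Or.inl⟩

/-- `π²` in `H` -/
noncomputable def ff : HH := Finsupp.single (1, []) 1

lemma ff_mem : ff ∈ Hk 2 := by
  rw [mem_Hk]
  intro p hp
  unfold ff at hp
  rw [Finsupp.support_single _ one_ne_zero, Finset.mem_singleton] at hp
  rw [hp]
  rfl

/-- `H_K + H_{K-1}` -/
noncomputable def AK (K : ℕ) : Submodule ℚ HH := Hk K ⊔ Hk (K - 1)

instance (K : ℕ) : FiniteDimensional ℚ (AK K) := by unfold AK; infer_instance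

lemma inf_bot {i j : ℕ} (h : i ≠ j) : Hk i ⊓ Hk j = ⊥ := by
  rw [Submodule.eq_bot_iff]
  rintro f ⟨h1, h2⟩
  have h3 := comp_same h1
  rw [comp_ne h h2] at h3
  exact h3.symm

lemma finrank_AK (K : ℕ) : finrank ℚ (AK K) = D (K + 2) := by
  unfold AK
  cases K with
  | zero =>
    rw [show 0 - 1 = 0 by rfl, sup_idem, finrank_Hk]
    rfl
  | succ k =>
    have h := Submodule.finrank_sup_add_finrank_inf_eq (Hk (k + 1)) (Hk (k + 1 - 1))
    rw [inf_bot (by omega), finrank_bot, finrank_Hk, finrank_Hk] at h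
    rw [show k + 1 + 2 = k + 3 by omega, D_succ3]
    simpa using h

/-- the space of the normalised values of weight at most `K` -/
noncomputable def VK (ψ : HH →ₗ[ℚ] ℝ) (K : ℕ) : Submodule ℚ ℝ := (AK K).map (phi ψ)

instance (K : ℕ) : FiniteDimensional ℚ (VK ψ K) := by unfold VK; infer_instance

lemma rank_VK (K : ℕ) :
    finrank ℚ (VK ψ K) + finrank ℚ (AK K ⊓ LinearMap.ker (phi ψ) : Submodule ℚ HH) = D (K + 2) := by
  rw [← finrank_AK]
  exact rank_nullity (AK K) (phi ψ)

lemma VK_le (K : ℕ) : finrank ℚ (VK ψ K) ≤ D (K + 2) := by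
  have := rank_VK (ψ := ψ) K
  omega

/-- `dim V_K ≤ dim Z_K + dim Z_{K-1}` -/
lemma image_Hk (hψ : IsSurjection Z ψ) (k : ℕ) :
    finrank ℚ ((Hk k).map (phi ψ)) ≤ finrank ℚ (Z k) := by
  have hfin := hψ.finite k
  have h : (Hk k).map (phi ψ) = (Z k).map ((LinearMap.mulRight ℚ ((Real.pi ^ k)⁻¹ : ℝ))) := by
    rw [← hψ.map k]
    ext z
    simp only [Submodule.mem_map]
    constructor
    · rintro ⟨x, hx, rfl⟩
      exact ⟨ψ x, ⟨x, hx, rfl⟩, by
        rw [phi_Hk hx, LinearMap.mulRight_apply, div_eq_mul_inv]⟩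
    · rintro ⟨_, ⟨x, hx, rfl⟩, rfl⟩
      exact ⟨x, hx, by rw [phi_Hk hx, LinearMap.mulRight_apply, div_eq_mul_inv]⟩
  rw [h]
  exact Submodule.finrank_map_le _ _

lemma VK_le_add (hψ : IsSurjection Z ψ) (K : ℕ) :
    finrank ℚ (VK ψ (K + 1)) ≤ finrank ℚ (Z (K + 1)) + finrank ℚ (Z K) := by
  have h1 : VK ψ (K + 1) = (Hk (K + 1)).map (phi ψ) ⊔ (Hk K).map (phi ψ) := by
    unfold VK AK
    rw [Submodule.map_sup]
    rfl
  have h2 := image_Hk hψ (K + 1)
  have h3 := image_Hk hψ K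
  have h4 := Submodule.finrank_sup_add_finrank_inf_eq ((Hk (K + 1)).map (phi ψ))
    ((Hk K).map (phi ψ))
  rw [h1]
  omega

/-- **A mixed relation gives a homogeneous one of twice the weight.** -/
theorem square_rel (hψ : IsSurjection Z ψ) {q : ℚ} (hq : q ≠ 0)
    (e2 : ψ ff = q * Real.pi ^ 2) {e : ℕ} {x y : HH} (hx : x ∈ Hk (e + 1)) (hy : y ∈ Hk e)
    (hxy : x ≠ 0 ∨ y ≠ 0) (h0 : phi ψ x + phi ψ y = 0) : ∃ r ∈ Ik ψ (2 * (e + 1)), r ≠ 0 := by
  have hff : phi ψ ff = q := by
    rw [phi_Hk ff_mem, e2]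
    have : Real.pi ^ 2 ≠ 0 := pow_ne_zero _ Real.pi_ne_zero
    field_simp
  set r : HH := q • mulH x x - mulH (mulH y y) ff with hr
  have hxx : mulH x x ∈ Hk (2 * (e + 1)) := mulTo_mem (by omega) hx hx
  have hyy : mulH (mulH y y) ff ∈ Hk (2 * (e + 1)) :=
    mulTo_mem (by omega) (mulTo_mem (n := 2 * e) (by omega) hy hy) ff_mem
  have hrm : r ∈ Hk (2 * (e + 1)) := Submodule.sub_mem _ (Submodule.smul_mem _ _ hxx) hyy
  refine ⟨r, mem_Ik.2 ⟨hrm, ?_⟩, ?_⟩
  · rw [← phi_zero_iff hrm, hr, map_sub, map_smul, phi_mul hψ, phi_mul hψ, phi_mul hψ, hff,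
      Rat.smul_def]
    have h1 : phi ψ x = - phi ψ y := by linarith
    rw [h1]
    ring
  · intro hr0
    have hff0 : ff ≠ 0 := by
      unfold ff
      exact Finsupp.single_ne_zero.2 one_ne_zero
    have heq : q • mulH x x = mulH (mulH y y) ff := sub_eq_zero.1 hr0
    by_cases hy0 : y = 0
    · have hx0 : x ≠ 0 := hxy.resolve_right fun h => h hy0
      have h1 := mulH_ne_zero hx hx hx0 hx0
      rw [hy0, zero_mulH, zero_mulH] at heq
      exact (smul_ne_zero hq h1) heq
    · by_cases hx0 : x = 0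
      · have h2 := mulH_ne_zero (mulTo_mem (n := 2 * e) (by omega) hy hy) ff_mem
          (mulH_ne_zero hy hy hy0 hy0) hff0
        rw [hx0, zero_mulH, smul_zero] at heq
        exact h2 heq.symm
      · obtain ⟨p, hp⟩ := exists_lead hx hx0
        obtain ⟨p', hp'⟩ := exists_lead hy hy0
        obtain ⟨W, hW⟩ := exists_merge p.2 p.2
        obtain ⟨W', hW'⟩ := exists_merge p'.2 p'.2
        have h1 := lead_mul hp hp hW
        have h2 := lead_mul hp' hp' hW'
        have h3 : IsLead ff (1, []) := by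
          constructor
          · unfold ff
            rw [Finsupp.support_single _ one_ne_zero, Finset.mem_singleton]
          · intro p'' hp''
            unfold ff at hp''
            rw [Finsupp.support_single _ one_ne_zero, Finset.mem_singleton] at hp''
            rw [hp'']
            exact Or.inr ⟨rfl, Or.inl rfl⟩
        obtain ⟨W'', hW''⟩ := exists_merge W' []
        have h4 := lead_mul h2 h3 hW''
        have h5 : IsLead (q • mulH x x) (p.1 + p.1, W) := by
          have hs : (q • mulH x x).support = (mulH x x).support := Finsupp.support_smul_eq hq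
          constructor
          · rw [hs]; exact h1.1
          · intro p'' hp''
            rw [hs] at hp''
            exact h1.2 p'' hp''
        rw [heq] at h5
        have h6 := congrArg Prod.fst (h5.unique h4)
        simp only at h6
        omega

/-- a relation among the normalised values gives a relation in `Z` -/
lemma rel_of_VK (hψ : IsSurjection Z ψ) {q : ℚ} (hq : q ≠ 0) (e2 : ψ ff = q * Real.pi ^ 2) {e : ℕ}
    (he : finrank ℚ (VK ψ e) < D (e + 2)) : ∃ r ∈ Ik ψ (2 * e), r ≠ 0 := by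
  have h1 := rank_VK (ψ := ψ) e
  have h2 : (AK e ⊓ LinearMap.ker (phi ψ) : Submodule ℚ HH) ≠ ⊥ := by
    intro h
    rw [h, finrank_bot] at h1
    omega
  obtain ⟨z, hz, hz0⟩ := Submodule.exists_mem_ne_zero_of_ne_bot h2
  obtain ⟨hz1, hz2⟩ := Submodule.mem_inf.1 hz
  rw [LinearMap.mem_ker] at hz2
  unfold AK at hz1
  cases e with
  | zero =>
    rw [show 0 - 1 = 0 by rfl, sup_idem] at hz1
    exact ⟨z, mem_Ik.2 ⟨hz1, (phi_zero_iff hz1).1 hz2⟩, hz0⟩
  | succ e =>
    obtain ⟨x, hx, y, hy, rfl⟩ := Submodule.mem_sup.1 hz1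
    refine square_rel hψ hq e2 hx hy ?_ (by rw [← map_add]; exact hz2)
    by_contra hno
    push Not at hno
    rw [hno.1, hno.2, add_zero] at hz0
    exact hz0 rfl

/-- a relation of weight `e` in `Z` costs `D (K - e + 2)` -/
lemma cost_of_rel (hψ : IsSurjection Z ψ) {e : ℕ} {r : HH} (hr : r ∈ Ik ψ e) (hr0 : r ≠ 0) (k : ℕ) :
    finrank ℚ (VK ψ (k + e)) + D (k + 2) ≤ D (k + e + 2) := by
  cases k with
  | zero =>
    have h1 := rank_VK (ψ := ψ) (0 + e)
    have hmem : r ∈ (AK (0 + e) ⊓ LinearMap.ker (phi ψ) : Submodule ℚ HH) := by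
      obtain ⟨h4, h5⟩ := mem_Ik.1 hr
      refine Submodule.mem_inf.2 ⟨?_, LinearMap.mem_ker.2 ((phi_zero_iff h4).2 h5)⟩
      unfold AK
      rw [zero_add]
      exact Submodule.mem_sup_left h4
    have h2 : 0 < finrank ℚ (AK (0 + e) ⊓ LinearMap.ker (phi ψ) : Submodule ℚ HH) := by
      refine Module.finrank_pos_iff_exists_ne_zero.2 ⟨⟨r, hmem⟩, ?_⟩
      intro h
      exact hr0 (congrArg Subtype.val h)
    have h6 : D (0 + 2) = 1 := rfl
    omega
  | succ k =>
    have h1 := gap_rel hψ hr hr0 (k + 1)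
    have h2 := gap_rel hψ hr hr0 k
    have h3 := VK_le_add hψ (k + e)
    have e1 : k + 1 + e = k + e + 1 := by omega
    rw [e1] at h1 ⊢
    have h4 := D_succ3 (k + e)
    have h5 := D_succ3 k
    have e3 : k + e + 1 + 2 = k + e + 3 := by omega
    have e4 : k + 1 + 2 = k + 3 := by omega
    rw [e3, e4, h4, h5]
    omega

theorem iso_iff_VK (hψ : IsSurjection Z ψ) {q : ℚ} (hq : q ≠ 0) (e2 : ψ ff = q * Real.pi ^ 2) :
    GradedIso Z ↔ {K | finrank ℚ (VK ψ K) = D (K + 2)}.Infinite := by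
  constructor
  · intro h
    have h1 : {K | finrank ℚ (VK ψ K) = D (K + 2)} = Set.univ := by
      refine Set.eq_univ_of_forall fun K => ?_
      by_contra hne
      have hlt : finrank ℚ (VK ψ K) < D (K + 2) := lt_of_le_of_ne (VK_le K) hne
      obtain ⟨r, hr, hr0⟩ := rel_of_VK hψ hq e2 hlt
      have h2 := (dim_iff hψ (2 * K)).1 (dims_of_iso h _)
      rw [h2, Submodule.mem_bot] at hr
      exact hr0 hr
    rw [h1]
    exact Set.infinite_univ
  · intro hinf
    refine iso_of_no_rel hψ ?_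
    rintro ⟨e, r, hr, hr0⟩
    obtain ⟨n, hn, hn2⟩ := hinf.exists_gt e
    have h := cost_of_rel hψ hr hr0 (n - e)
    have hD := D_pos (k := n - e + 2) (by omega)
    rw [Nat.sub_add_cancel (by omega)] at h
    have h5 : finrank ℚ (VK ψ n) = D (n + 2) := hn
    omega

lemma VK_limsup_le (hψ : IsSurjection Z ψ) {ρ : ℝ} (h1 : 1 < ρ) (h2 : ρ < 2) (h3 : ρ ^ 3 = ρ + 1)
    {e : ℕ} {r : HH} (hr : r ∈ Ik ψ e) (hr0 : r ≠ 0) :
    limsup (fun K => (finrank ℚ (VK ψ K) : ℝ) / D (K + 2)) atTop ≤ 1 - (ρ ^ e)⁻¹ := by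
  refine limsup_le_of_gap (a := fun K => D (K + 2)) (b := fun K => finrank ℚ (VK ψ K)) (e := e)
    (fun k => cost_of_rel hψ hr hr0 k) ?_
  have h4 := (tendsto_add_atTop_iff_nat 2).2 (D_ratio h1 h2 h3 e)
  refine h4.congr fun k => ?_
  rw [show k + 2 + e = k + e + 2 by omega]

theorem iso_iff_VK_limsup (hψ : IsSurjection Z ψ) {q : ℚ} (hq : q ≠ 0)
    (e2 : ψ ff = q * Real.pi ^ 2) :
    GradedIso Z ↔ limsup (fun K => (finrank ℚ (VK ψ K) : ℝ) / D (K + 2)) atTop = 1 := by
  constructor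
  · intro h
    refine limsup_one ?_
    refine Eventually.of_forall fun K => ?_
    have h1 : finrank ℚ (VK ψ K) = D (K + 2) := by
      by_contra hne
      have hlt : finrank ℚ (VK ψ K) < D (K + 2) := lt_of_le_of_ne (VK_le K) hne
      obtain ⟨r, hr, hr0⟩ := rel_of_VK hψ hq e2 hlt
      have h2 := (dim_iff hψ (2 * K)).1 (dims_of_iso h _)
      rw [h2, Submodule.mem_bot] at hr
      exact hr0 hr
    rw [h1]
    have := D_pos (k := K + 2) (by omega)
    exact div_self (by positivity)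
  · intro hl
    refine iso_of_no_rel hψ ?_
    rintro ⟨e, r, hr, hr0⟩
    obtain ⟨ρ, h1, h2, h3⟩ := exists_rho
    have h := VK_limsup_le hψ h1 h2 h3 hr hr0
    rw [hl] at h
    have : 0 < (ρ ^ e)⁻¹ := by positivity
    linarith

/-! ### linear independence -/

/-- the normalised value of a word -/
noncomputable def tw (ψ : HH →ₗ[ℚ] ℝ) (w : List ℕ) : ℝ :=
  ψ (Finsupp.single (0, w) 1) / Real.pi ^ wl w

lemma phi_word (hψ : IsSurjection Z ψ) {q : ℚ} (e2 : ψ ff = q * Real.pi ^ 2) (m : ℕ)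
    (w : List ℕ) : phi ψ (Finsupp.single (m, w) 1) = (q : ℝ) ^ m * tw ψ w := by
  have hpi : Real.pi ≠ 0 := Real.pi_ne_zero
  have h1 : Finsupp.single ((m, w) : ℕ × List ℕ) (1 : ℚ) =
      mulH (Finsupp.single (m, []) 1) (Finsupp.single (0, w) 1) := by
    rw [single_mul]
    simp [shuf_nil_left]
  have h2 := psi_zeros hψ m 0
  simp only [List.replicate_zero, pow_zero, Nat.factorial_zero, Nat.cast_one, div_one,
    mul_one] at h2
  change _ = ψ ff ^ m at h2
  rw [h1, phi_mul hψ, phi_single, phi_single, h2, e2]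
  unfold tw wt
  simp only [wl_nil, add_zero, mul_zero, zero_add]
  rw [pow_mul, mul_pow]
  have h3 : (Real.pi ^ 2) ^ m ≠ 0 := pow_ne_zero _ (pow_ne_zero _ hpi)
  field_simp

/-- lifting the words of one parity -/
noncomputable def lift (q : ℚ) (e : ℕ) (s : Finset (List ℕ)) (c : List ℕ → ℚ) : HH :=
  ∑ w ∈ s, (c w * (q⁻¹) ^ ((e - wl w) / 2)) • Finsupp.single ((e - wl w) / 2, w) (1 : ℚ)

lemma lift_mem (q : ℚ) (e : ℕ) (s : Finset (List ℕ)) (c : List ℕ → ℚ)
    (h : ∀ w ∈ s, ∃ i, e = wl w + 2 * i) : lift q e s c ∈ Hk e := by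
  refine Submodule.sum_mem _ fun w hw => Submodule.smul_mem _ _ ?_
  obtain ⟨i, hi⟩ := h w hw
  rw [mem_Hk]
  intro p hp
  rw [Finsupp.support_single _ one_ne_zero, Finset.mem_singleton] at hp
  rw [hp]
  unfold wt
  simp only
  omega

lemma lift_coeff (q : ℚ) (e : ℕ) (s : Finset (List ℕ)) (c : List ℕ → ℚ) {w : List ℕ}
    (hw : w ∈ s) : lift q e s c ((e - wl w) / 2, w) = c w * (q⁻¹) ^ ((e - wl w) / 2) := by
  unfold lift
  rw [Finsupp.finsetSum_apply, Finset.sum_eq_single w]
  · rw [Finsupp.smul_apply, Finsupp.single_eq_same, smul_eq_mul, mul_one]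
  · intro v _ hvw
    rw [Finsupp.smul_apply, Finsupp.single_apply, if_neg, smul_zero]
    intro heq
    exact hvw (congrArg Prod.snd heq)
  · intro hno
    exact absurd hw hno

lemma phi_lift (hψ : IsSurjection Z ψ) {q : ℚ} (hq : q ≠ 0) (e2 : ψ ff = q * Real.pi ^ 2) (e : ℕ)
    (s : Finset (List ℕ)) (c : List ℕ → ℚ) :
    phi ψ (lift q e s c) = ∑ w ∈ s, c w • tw ψ w := by
  unfold lift
  rw [map_sum]
  refine Finset.sum_congr rfl fun w _ => ?_
  rw [map_smul, phi_word hψ e2, Rat.smul_def, Rat.smul_def]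
  have h : (q : ℝ) ≠ 0 := by exact_mod_cast hq
  push_cast
  rw [inv_pow]
  have h2 : (q : ℝ) ^ ((e - wl w) / 2) ≠ 0 := pow_ne_zero _ h
  field_simp

/-- **The problem as one statement of linear independence.** -/
theorem iso_iff_linInd (hψ : IsSurjection Z ψ) {q : ℚ} (hq : q ≠ 0)
    (e2 : ψ ff = q * Real.pi ^ 2) : GradedIso Z ↔ LinearIndependent ℚ (tw ψ) := by
  classical
  constructor
  · intro hiso
    rw [linearIndependent_iff']
    intro s c hsum w0 hw0
    -- choose the weight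
    obtain ⟨e, he⟩ : ∃ e, ∀ w ∈ s, wl w ≤ e := by
      refine ⟨s.sup wl, fun w hw => Finset.le_sup hw⟩
    set s1 := s.filter fun w => ∃ i, e + 1 = wl w + 2 * i with hs1
    set s2 := s.filter fun w => ¬ ∃ i, e + 1 = wl w + 2 * i with hs2
    have hx : lift q (e + 1) s1 c ∈ Hk (e + 1) :=
      lift_mem _ _ _ _ fun w hw => (Finset.mem_filter.1 hw).2
    have hpar : ∀ w ∈ s2, ∃ i, e = wl w + 2 * i := by
      intro w hw
      obtain ⟨h1, h2⟩ := Finset.mem_filter.1 hw
      have h3 := he w h1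
      by_contra hno
      rcases Nat.even_or_odd' (e - wl w) with ⟨i, hi | hi⟩
      · exact hno ⟨i, by omega⟩
      · exact h2 ⟨i + 1, by omega⟩
    have hy : lift q e s2 c ∈ Hk e := lift_mem _ _ _ _ hpar
    have hzero : phi ψ (lift q (e + 1) s1 c) + phi ψ (lift q e s2 c) = 0 := by
      rw [phi_lift hψ hq e2, phi_lift hψ hq e2, ← hsum]
      exact Finset.sum_filter_add_sum_filter_not s _ _
    by_contra hc
    have hne : lift q (e + 1) s1 c ≠ 0 ∨ lift q e s2 c ≠ 0 := by
      by_cases hp : ∃ i, e + 1 = wl w0 + 2 * i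
      · left
        intro h0
        have h1 := lift_coeff q (e + 1) s1 c (Finset.mem_filter.2 ⟨hw0, hp⟩)
        rw [h0] at h1
        exact (mul_ne_zero hc (pow_ne_zero _ (inv_ne_zero hq))) h1.symm
      · right
        intro h0
        have h1 := lift_coeff q e s2 c (Finset.mem_filter.2 ⟨hw0, hp⟩)
        rw [h0] at h1
        exact (mul_ne_zero hc (pow_ne_zero _ (inv_ne_zero hq))) h1.symm
    obtain ⟨r, hr, hr0⟩ := square_rel hψ hq e2 hx hy hne hzero
    have h2 := (dim_iff hψ _).1 (dims_of_iso hiso (2 * (e + 1)))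
    rw [h2, Submodule.mem_bot] at hr
    exact hr0 hr
  · intro hli
    refine iso_of_no_rel hψ ?_
    rintro ⟨e, r, hr, hr0⟩
    obtain ⟨hr1, hr2⟩ := mem_Ik.1 hr
    have h0 : phi ψ r = 0 := (phi_zero_iff hr1).2 hr2
    have h1 : phi ψ r = ∑ p ∈ r.support, (r p * q ^ p.1) • tw ψ p.2 := by
      conv_lhs => rw [sum_singles r]
      rw [map_sum]
      refine Finset.sum_congr rfl fun p _ => ?_
      have h2 := phi_word hψ e2 p.1 p.2
      rw [map_smul]
      have h3 : phi ψ (Finsupp.single p 1) = (q : ℝ) ^ p.1 * tw ψ p.2 := h2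
      rw [h3, Rat.smul_def, Rat.smul_def]
      push_cast
      ring
    have hinj : ∀ p ∈ r.support, ∀ p' ∈ r.support, p.2 = p'.2 → p = p' := by
      intro p hp p' hp' h
      have h3 := mem_Hk.1 hr1 p hp
      have h4 := mem_Hk.1 hr1 p' hp'
      unfold wt at h3 h4
      rw [h] at h3
      exact Prod.ext (by omega) h
    obtain ⟨p0, hp0⟩ := Finsupp.support_nonempty_iff.2 hr0
    have hli' := linearIndependent_iff'.1 hli (r.support.image Prod.snd)
      (fun w => ∑ p ∈ r.support.filter (fun p => p.2 = w), r p * q ^ p.1) (by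
        rw [← h0, h1]
        rw [← Finset.sum_fiberwise_of_maps_to (s := r.support) (t := r.support.image Prod.snd)
          (g := Prod.snd) fun p hp => Finset.mem_image_of_mem _ hp]
        refine Finset.sum_congr rfl fun w _ => ?_
        rw [Finset.sum_smul]
        refine Finset.sum_congr rfl fun p hp => ?_
        rw [(Finset.mem_filter.1 hp).2]) p0.2 (Finset.mem_image_of_mem _ hp0)
    have h5 : r.support.filter (fun p => p.2 = p0.2) = {p0} := by
      ext p
      rw [Finset.mem_filter, Finset.mem_singleton]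
      constructor
      · rintro ⟨h6, h7⟩
        exact hinj p h6 p0 hp0 h7
      · rintro rfl
        exact ⟨hp0, rfl⟩
    rw [h5, Finset.sum_singleton] at hli'
    exact (mul_ne_zero (Finsupp.mem_support_iff.1 hp0) (pow_ne_zero _ hq)) hli'

/-! ### the space `V_K` -/

lemma Hk_step (hψ : IsSurjection Z ψ) {q : ℚ} (hq : q ≠ 0) (e2 : ψ ff = q * Real.pi ^ 2) (k i : ℕ) :
    (Hk k).map (phi ψ) ≤ (Hk (k + 2 * i)).map (phi ψ) := by
  induction i with
  | zero => exact le_rfl
  | succ i ih =>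
    refine ih.trans ?_
    rintro _ ⟨x, hx, rfl⟩
    refine ⟨q⁻¹ • mulH x ff, Submodule.smul_mem _ _ (mulTo_mem (by omega) hx ff_mem), ?_⟩
    have hff : phi ψ ff = q := by
      rw [phi_Hk ff_mem, e2]
      have : Real.pi ^ 2 ≠ 0 := pow_ne_zero _ Real.pi_ne_zero
      field_simp
    rw [map_smul, phi_mul hψ, hff, Rat.smul_def]
    have h : (q : ℝ) ≠ 0 := by exact_mod_cast hq
    push_cast
    field_simp

/-- `V_K` contains all normalised elements of weight at most `K`. -/
lemma mem_VK (hψ : IsSurjection Z ψ) {q : ℚ} (hq : q ≠ 0) (e2 : ψ ff = q * Real.pi ^ 2) {k K : ℕ}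
    (hk : k ≤ K) {z : ℝ} (hz : z ∈ Z k) : z / Real.pi ^ k ∈ VK ψ K := by
  rw [← hψ.map k, Submodule.mem_map] at hz
  obtain ⟨x, hx, rfl⟩ := hz
  have h1 : ψ x / Real.pi ^ k ∈ (Hk k).map (phi ψ) := ⟨x, hx, phi_Hk hx⟩
  unfold VK AK
  rw [Submodule.map_sup]
  rcases Nat.even_or_odd' (K - k) with ⟨i, hi | hi⟩
  · refine Submodule.mem_sup_left ?_
    have h2 := Hk_step hψ hq e2 k i h1
    rwa [show k + 2 * i = K by omega] at h2
  · refine Submodule.mem_sup_right ?_
    have h2 := Hk_step hψ hq e2 k i h1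
    rwa [show k + 2 * i = K - 1 by omega] at h2

/-- `V_K` is spanned by the normalised elements of weight at most `K`. -/
lemma VK_le_span (hψ : IsSurjection Z ψ) (K : ℕ) (S : Submodule ℚ ℝ)
    (h : ∀ k, k ≤ K → ∀ z ∈ Z k, z / Real.pi ^ k ∈ S) : VK ψ K ≤ S := by
  unfold VK AK
  rw [Submodule.map_sup]
  have key : ∀ k, k ≤ K → (Hk k).map (phi ψ) ≤ S := by
    rintro k hk _ ⟨x, hx, rfl⟩
    rw [phi_Hk hx]
    refine h k hk _ ?_
    rw [← hψ.map k]
    exact ⟨x, hx, rfl⟩
  exact sup_le (key K le_rfl) (key (K - 1) (by omega))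

/-- the shuffle product formula for the normalised values -/
lemma tw_mul (hψ : IsSurjection Z ψ) (u v : List ℕ) :
    tw ψ u * tw ψ v = ((shuf u v).map (tw ψ)).sum := by
  have h1 : ∀ w, tw ψ w = phi ψ (Finsupp.single (0, w) 1) := by
    intro w
    rw [phi_single]
    unfold tw wt
    simp
  rw [h1 u, h1 v, ← phi_mul hψ, single_mul, map_list_sum']
  simp only [add_zero]
  congr 1
  exact List.map_congr_left fun w _ => (h1 w).symm

/-- `V_K` is spanned by the normalised values of the words of weight at most `K`. -/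
lemma VK_eq (hψ : IsSurjection Z ψ) {q : ℚ} (hq : q ≠ 0) (e2 : ψ ff = q * Real.pi ^ 2) (K : ℕ) :
    VK ψ K = Submodule.span ℚ (tw ψ '' {w | wl w ≤ K}) := by
  refine le_antisymm ?_ (Submodule.span_le.2 ?_)
  · rintro _ ⟨z, hz, rfl⟩
    have hle : ∀ p ∈ z.support, wl p.2 ≤ K := by
      have h1 : z ∈ Finsupp.supported ℚ ℚ {p : ℕ × List ℕ | wl p.2 ≤ K} := by
        refine (?_ : AK K ≤ _) hz
        unfold AK Hk
        refine sup_le (Finsupp.supported_mono ?_) (Finsupp.supported_mono ?_)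
        · intro p hp
          change wt p = K at hp
          unfold wt at hp
          change wl p.2 ≤ K
          omega
        · intro p hp
          change wt p = K - 1 at hp
          unfold wt at hp
          change wl p.2 ≤ K
          omega
      intro p hp
      exact (Finsupp.mem_supported _ _).1 h1 hp
    rw [sum_singles z, map_sum]
    refine Submodule.sum_mem _ fun p hp => ?_
    rw [map_smul]
    refine Submodule.smul_mem _ _ ?_
    have h2 := phi_word hψ e2 p.1 p.2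
    have h3 : phi ψ (Finsupp.single p 1) = (q ^ p.1 : ℚ) • tw ψ p.2 := by
      rw [Rat.smul_def]
      push_cast
      exact h2
    rw [h3]
    exact Submodule.smul_mem _ _ (Submodule.subset_span ⟨p.2, hle p hp, rfl⟩)
  · rintro _ ⟨w, hw, rfl⟩
    have h1 : ψ (Finsupp.single (0, w) 1) ∈ Z (wl w) := by
      rw [← hψ.map (wl w)]
      refine ⟨_, ?_, rfl⟩
      refine Finsupp.single_mem_supported _ _ ?_
      change wt (0, w) = wl w
      unfold wt
      simp
    exact mem_VK hψ hq e2 hw h1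

end Pool.Agent.J4.H88.MZ
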