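import Pool.Agent.J4.H88.MZ.Core

/-!
# Galois automorphisms and derivations of the shuffle algebra
-/

set_option autoImplicit false

namespace Pool.Agent.J4.H88.MZ

open Pool.Agent.J4.H42.MZ Module

/-! ### sums over lists -/

section SL

variable {α β M : Type*} [AddCommGroup M]

/-- sum over a list -/
def SL (L : List α) (f : α → M) : M := (L.map f).sum

lemma SL_nil (f : α → M) : SL [] f = 0 := rfl

lemma SL_cons (x : α) (L : List α) (f : α → M) : SL (x :: L) f = f x + SL L f := by
  unfold SL
  rw [List.map_cons, List.sum_cons]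

lemma SL_one (x : α) (f : α → M) : SL [x] f = f x := by
  rw [SL_cons, SL_nil, add_zero]

lemma SL_append (L L' : List α) (f : α → M) : SL (L ++ L') f = SL L f + SL L' f := by
  unfold SL
  rw [List.map_append, List.sum_append]

lemma SL_map (L : List β) (g : β → α) (f : α → M) : SL (L.map g) f = SL L fun x => f (g x) := by
  unfold SL
  rw [List.map_map]
  rfl

lemma SL_add (L : List α) (f g : α → M) : SL L (fun x => f x + g x) = SL L f + SL L g := by
  induction L with
  | nil => simp [SL_nil]
  | cons x L ih => rw [SL_cons, SL_cons, SL_cons, ih]; abel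

lemma SL_congr {L : List α} {f g : α → M} (h : ∀ x ∈ L, f x = g x) : SL L f = SL L g := by
  unfold SL
  rw [List.map_congr_left h]

lemma SL_zero {L : List α} {f : α → M} (h : ∀ x ∈ L, f x = 0) : SL L f = 0 := by
  induction L with
  | nil => rfl
  | cons x L ih =>
    rw [SL_cons, h x List.mem_cons_self, ih fun y hy => h y (List.mem_cons_of_mem _ hy), add_zero]

lemma map_SL {N : Type*} [AddCommGroup N] [Module ℚ M] [Module ℚ N] (T : M →ₗ[ℚ] N) (L : List α)
    (f : α → M) : T (SL L f) = SL L fun x => T (f x) := map_list_sum' T L f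

lemma SL_smul [Module ℚ M] (L : List α) (c : α → ℚ) (m : M) :
    SL L (fun x => c x • m) = (SL L c) • m := by
  induction L with
  | nil => simp [SL_nil]
  | cons x L ih => rw [SL_cons, SL_cons, ih, add_smul]

end SL

/-! ### decompositions of words -/

/-- all decompositions of a word -/
def dec : List ℕ → List (List ℕ × List ℕ)
  | [] => [([], [])]
  | a :: w => ([], a :: w) :: (dec w).map fun p => (a :: p.1, p.2)

lemma dec_nil : dec [] = [([], [])] := rfl

lemma dec_cons (a : ℕ) (w : List ℕ) :
    dec (a :: w) = ([], a :: w) :: (dec w).map fun p => (a :: p.1, p.2) := rfl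

lemma mem_dec {w : List ℕ} {d : List ℕ × List ℕ} (h : d ∈ dec w) : w = d.1 ++ d.2 := by
  induction w generalizing d with
  | nil => rw [dec_nil, List.mem_singleton] at h; rw [h]; rfl
  | cons a w ih =>
    rw [dec_cons, List.mem_cons, List.mem_map] at h
    rcases h with rfl | ⟨d', h', rfl⟩
    · rfl
    · rw [List.cons_append, ← ih h']

lemma sum_dec {M : Type*} [AddCommGroup M] (w : List ℕ) (G : List ℕ → List ℕ → M) :
    ∑ i ∈ Finset.range (w.length + 1), G (w.take i) (w.drop i) =
      SL (dec w) fun d => G d.1 d.2 := by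
  induction w generalizing G with
  | nil => simp [dec_nil, SL_one]
  | cons a w ih =>
    rw [List.length_cons, Finset.sum_range_succ', dec_cons, SL_cons, SL_map, add_comm]
    congr 1
    simp only [List.take_succ_cons, List.drop_succ_cons]
    exact ih fun u v => G (a :: u) v

/-- **Deconcatenation is a homomorphism for the shuffle product.** -/
lemma dec_shuf {M : Type*} [AddCommGroup M] (x y : List ℕ) (G : List ℕ → List ℕ → M) :
    SL (shuf x y) (fun w => SL (dec w) fun d => G d.1 d.2) =
      SL (dec x) fun p => SL (dec y) fun q => SL (shuf p.1 q.1) fun u =>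
        SL (shuf p.2 q.2) fun v => G u v := by
  induction x generalizing y G with
  | nil =>
    rw [shuf_nil_left, SL_one, dec_nil, SL_one]
    refine SL_congr fun q _ => ?_
    rw [shuf_nil_left, SL_one, shuf_nil_left, SL_one]
  | cons a x ihx =>
    induction y generalizing G with
    | nil =>
      rw [shuf_nil_right, SL_one, dec_nil]
      refine SL_congr fun q _ => ?_
      rw [SL_one, shuf_nil_right, SL_one, shuf_nil_right, SL_one]
    | cons b y ihy =>
      have e1 := ihx (b :: y) (fun u v => G (a :: u) v)
      have e2 := ihy (fun u v => G (b :: u) v)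
      rw [dec_cons b y] at e1
      rw [dec_cons a x] at e2
      rw [shuf_cons, SL_append, SL_map, SL_map]
      simp only [dec_cons, SL_cons, SL_map, SL_add] at e1 e2 ⊢
      rw [e1, e2]
      simp only [shuf_nil_left, shuf_nil_right, SL_one, shuf_cons, SL_append, SL_map, SL_add]
      abel

/-! ### the Galois automorphisms -/

/-- characters of the shuffle algebra -/
structure IsChar (χ : List ℕ → ℚ) : Prop where
  nil : χ [] = 1
  mul : ∀ u v, ((shuf u v).map χ).sum = χ u * χ v

/-- `(π²)^m ⊗ w` is mapped to the sum of `χ(u) (π²)^m ⊗ v` over all decompositions `w = u v`. -/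
noncomputable def sig (χ : List ℕ → ℚ) : HH →ₗ[ℚ] HH :=
  Finsupp.linearCombination ℚ fun p : ℕ × List ℕ =>
    ∑ i ∈ Finset.range (p.2.length + 1), χ (p.2.take i) • Finsupp.single (p.1, p.2.drop i) (1 : ℚ)

variable {χ : List ℕ → ℚ}

lemma sig_single (p : ℕ × List ℕ) : sig χ (Finsupp.single p 1) =
    SL (dec p.2) fun d => χ d.1 • Finsupp.single (p.1, d.2) (1 : ℚ) := by
  unfold sig
  rw [Finsupp.linearCombination_single, one_smul]
  exact sum_dec p.2 fun u v => χ u • Finsupp.single (p.1, v) (1 : ℚ)

lemma mulH_SL {α β : Type*} (L : List α) (L' : List β) (f : α → HH) (g : β → HH) :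
    mulH (SL L f) (SL L' g) = SL L fun x => SL L' fun y => mulH (f x) (g y) := by
  have h1 : ∀ h : HH, mulH (SL L f) h = SL L fun x => mulH (f x) h := fun h => map_SL (mulR h) L f
  rw [h1]
  refine SL_congr fun x _ => ?_
  exact map_SL (mulB (f x)) L' g

lemma sig_mul (hχ : IsChar χ) (f g : HH) : sig χ (mulH f g) = mulH (sig χ f) (sig χ g) := by
  have h : mulB.compr₂ (sig χ) = mulB.compl₁₂ (sig χ) (sig χ) := by
    refine bil_ext fun p q => ?_
    change sig χ (mulH _ _) = mulH (sig χ _) (sig χ _)
    rw [single_mul, sig_single, sig_single, mulH_SL]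
    change sig χ (SL (shuf p.2 q.2) fun w => Finsupp.single (p.1 + q.1, w) (1 : ℚ)) = _
    rw [map_SL]
    simp only [sig_single]
    rw [dec_shuf p.2 q.2 fun u v => χ u • Finsupp.single (p.1 + q.1, v) (1 : ℚ)]
    refine SL_congr fun d _ => SL_congr fun d' _ => ?_
    rw [mulH_smul_left, mulH_smul_right, single_mul, smul_smul]
    have e1 : ∀ u : List ℕ, (SL (shuf d.2 d'.2) fun v => χ u • Finsupp.single (p.1 + q.1, v) (1 : ℚ))
        = χ u • SL (shuf d.2 d'.2) fun v => Finsupp.single (p.1 + q.1, v) (1 : ℚ) := by
      intro u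
      exact (map_SL (LinearMap.lsmul ℚ HH (χ u)) _ _).symm
    simp only [e1]
    rw [SL_smul]
    congr 1
    exact hχ.mul d.1 d'.1
  exact congrArg (fun B : HH →ₗ[ℚ] HH →ₗ[ℚ] HH => B f g) h

lemma sig_low (hχ : IsChar χ) (k : ℕ) (f : HH) (hf : f ∈ Hk k) :
    sig χ f - f ∈ Finsupp.supported ℚ ℚ {p | wt p + 2 ≤ k} := by
  have h1 : sig χ f - f = ∑ p ∈ f.support, f p • (sig χ (Finsupp.single p 1) - Finsupp.single p 1) := by
    have h2 : ∀ T : HH →ₗ[ℚ] HH, T f = ∑ p ∈ f.support, f p • T (Finsupp.single p 1) := by
      intro T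
      conv_lhs => rw [← Finsupp.sum_single f]
      rw [Finsupp.sum, map_sum]
      refine Finset.sum_congr rfl fun p _ => ?_
      rw [← map_smul, Finsupp.smul_single, smul_eq_mul, mul_one]
    exact h2 (sig χ - LinearMap.id)
  rw [h1]
  refine Submodule.sum_mem _ fun p hp => Submodule.smul_mem _ _ ?_
  have hw : wt p = k := mem_Hk.1 hf p hp
  obtain ⟨m, w⟩ := p
  rw [sig_single]
  simp only
  cases w with
  | nil =>
    rw [dec_nil, SL_one]
    simp only
    rw [hχ.nil, one_smul, sub_self]
    exact Submodule.zero_mem _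
  | cons a w =>
    rw [dec_cons, SL_cons, SL_map]
    simp only
    rw [hχ.nil, one_smul, add_sub_cancel_left]
    have h5 : ∀ L : List (List ℕ × List ℕ), (∀ d ∈ L, wl d.2 ≤ wl w) →
        (SL L fun d => χ (a :: d.1) • Finsupp.single (m, d.2) (1 : ℚ)) ∈
          Finsupp.supported ℚ ℚ {p | wt p + 2 ≤ k} := by
      intro L
      induction L with
      | nil => intro _; exact Submodule.zero_mem _
      | cons d L ih =>
        intro hL
        rw [SL_cons]
        refine Submodule.add_mem _ (Submodule.smul_mem _ _ ?_)
          (ih fun d' hd' => hL d' (List.mem_cons_of_mem _ hd'))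
        refine Finsupp.single_mem_supported _ _ ?_
        have h6 := hL d List.mem_cons_self
        unfold wt at hw
        simp only [wl_cons] at hw
        change 2 * m + wl d.2 + 2 ≤ k
        omega
    refine h5 _ fun d hd => ?_
    rw [mem_dec hd]
    unfold wl
    rw [List.map_append, List.sum_append]
    omega

lemma sig_uni (hχ : IsChar χ) : IsUni (sig χ) := ⟨sig_mul hχ, sig_low hχ⟩

/-! ### the derivations -/

/-- cutting off the first letter `f_{2a+3}` -/
noncomputable def der (a : ℕ) : HH →ₗ[ℚ] HH :=
  Finsupp.linearCombination ℚ fun p : ℕ × List ℕ =>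
    if p.2.head? = some a then Finsupp.single (p.1, p.2.tail) (1 : ℚ) else 0

lemma der_single (a : ℕ) (p : ℕ × List ℕ) : der a (Finsupp.single p 1) =
    if p.2.head? = some a then Finsupp.single (p.1, p.2.tail) (1 : ℚ) else 0 := by
  unfold der
  rw [Finsupp.linearCombination_single, one_smul]

lemma der_apply (a : ℕ) (f : HH) (m : ℕ) (w : List ℕ) : der a f (m, w) = f (m, a :: w) := by
  have h : (Finsupp.lapply (m, w) : HH →ₗ[ℚ] ℚ).comp (der a) = Finsupp.lapply (m, a :: w) := by
    refine Finsupp.lhom_ext' fun p => LinearMap.ext_ring ?_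
    change der a (Finsupp.single p 1) (m, w) = Finsupp.single p (1 : ℚ) (m, a :: w)
    rw [der_single]
    obtain ⟨n, v⟩ := p
    cases v with
    | nil =>
      rw [if_neg (by simp), Finsupp.single_eq_of_ne (by simp)]
      rfl
    | cons b v =>
      simp only [List.head?_cons, Option.some.injEq, List.tail_cons]
      by_cases hb : b = a
      · subst hb
        rw [if_pos rfl, Finsupp.single_apply, Finsupp.single_apply]
        simp
      · rw [if_neg hb, Finsupp.single_eq_of_ne (by simp [Ne.symm hb])]
        rfl
  exact congrArg (fun L : HH →ₗ[ℚ] ℚ => L f) h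

lemma der_cons (a n b : ℕ) (v : List ℕ) : der a (Finsupp.single (n, b :: v) 1) =
    if b = a then Finsupp.single (n, v) (1 : ℚ) else 0 := by
  rw [der_single]
  simp

lemma der_nil (a n : ℕ) : der a (Finsupp.single (n, []) 1) = 0 := by
  rw [der_single, if_neg (by simp)]

lemma mulH_zero (f : HH) : mulH f 0 = 0 := (mulB f).map_zero

lemma SL_shuf_single (x y : List ℕ) (m n : ℕ) :
    (SL (shuf x y) fun w => Finsupp.single (m + n, w) (1 : ℚ)) =
      mulH (Finsupp.single (m, x) 1) (Finsupp.single (n, y) 1) := by
  rw [single_mul]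
  rfl

lemma SL_ite {α : Type*} (L : List α) (P : Prop) [Decidable P] (f : α → HH) :
    (SL L fun x => if P then f x else 0) = if P then SL L f else 0 := by
  split_ifs
  · rfl
  · exact SL_zero fun _ _ => rfl

lemma der_mul (a : ℕ) (f g : HH) : der a (mulH f g) = mulH (der a f) g + mulH f (der a g) := by
  have h : mulB.compr₂ (der a) = mulB.compl₁₂ (der a) LinearMap.id +
      mulB.compl₁₂ LinearMap.id (der a) := by
    refine bil_ext fun p q => ?_
    change der a (mulH _ _) = mulH (der a _) (LinearMap.id _) + mulH (LinearMap.id _) (der a _)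
    simp only [LinearMap.id_coe, id_eq]
    rw [single_mul]
    change der a (SL (shuf p.2 q.2) fun w => Finsupp.single (p.1 + q.1, w) (1 : ℚ)) = _
    rw [map_SL]
    obtain ⟨m, x⟩ := p
    obtain ⟨n, y⟩ := q
    simp only
    cases x with
    | nil =>
      rw [shuf_nil_left, SL_one, der_nil, zero_mulH, zero_add]
      cases y with
      | nil => rw [der_nil, der_nil, mulH_zero]
      | cons b y =>
        rw [der_cons, der_cons]
        split_ifs
        · rw [single_mul]
          simp only [shuf_nil_left, List.map_cons, List.map_nil, List.sum_cons, List.sum_nil,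
            add_zero]
        · rw [mulH_zero]
    | cons c x =>
      cases y with
      | nil =>
        rw [shuf_nil_right, SL_one, der_nil, mulH_zero, add_zero, der_cons, der_cons]
        split_ifs
        · rw [single_mul]
          simp only [shuf_nil_right, List.map_cons, List.map_nil, List.sum_cons, List.sum_nil,
            add_zero]
        · rw [zero_mulH]
      | cons b y =>
        rw [shuf_cons, SL_append, SL_map, SL_map]
        simp only [der_cons]
        rw [SL_ite, SL_ite, SL_shuf_single, SL_shuf_single]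
        congr 1
        · split_ifs
          · rfl
          · rw [zero_mulH]
        · split_ifs
          · rfl
          · rw [mulH_zero]
  exact congrArg (fun B : HH →ₗ[ℚ] HH →ₗ[ℚ] HH => B f g) h

lemma der_der (a : ℕ) : IsDer (der a) (2 * a + 3) where
  two := by omega
  mul := der_mul a
  low := by
    intro k f hf
    rw [mem_Hk]
    rintro ⟨m, w⟩ hp
    rw [Finsupp.mem_support_iff, der_apply] at hp
    have h := mem_Hk.1 hf _ (Finsupp.mem_support_iff.2 hp)
    unfold wt at h ⊢
    simp only [wl_cons] at h ⊢
    omega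
  zero := by
    intro k hk f hf
    ext ⟨m, w⟩
    rw [der_apply]
    by_contra hne
    have h := mem_Hk.1 hf _ (Finsupp.mem_support_iff.2 hne)
    unfold wt at h
    simp only [wl_cons] at h
    omega

end Pool.Agent.J4.H88.MZ
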