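import Pool.Agent.J4.H88.MZ.Fix

/-!
# The Lie ideal of the derivations which vanish on `f_3`, and `ζ(3) / π³`
-/

set_option autoImplicit false

namespace Pool.Agent.J4.H88.MZ

open Pool.Agent.J4.H42.MZ Module

/-- The commutator of two derivations. -/
lemma IsDer.bracket {S T : HH →ₗ[ℚ] HH} {d e : ℕ} (hS : IsDer S d) (hT : IsDer T e) :
    IsDer (S.comp T - T.comp S) (d + e) where
  two := by have := hS.two; omega
  mul := by
    intro f g
    simp only [LinearMap.sub_apply, LinearMap.comp_apply, hS.mul, hT.mul, map_add]
    have h1 : ∀ a b c : HH, mulH (a - b) c = mulH a c - mulH b c := by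
      intro a b c
      exact (mulR c).map_sub a b
    have h2 : ∀ a b c : HH, mulH a (b - c) = mulH a b - mulH a c := by
      intro a b c
      exact (mulB a).map_sub b c
    rw [h1, h2]
    abel
  low := by
    intro k f hf
    have h1 : f ∈ Hk (k + d + e) := by rwa [add_assoc]
    have h2 : f ∈ Hk (k + e + d) := by rwa [add_assoc, add_comm e d]
    exact Submodule.sub_mem _ (hS.low _ _ (hT.low _ _ h1)) (hT.low _ _ (hS.low _ _ h2))
  zero := by
    intro k hk f hf
    have key : ∀ (S T : HH →ₗ[ℚ] HH) (d e : ℕ), IsDer S d → IsDer T e → k < d + e →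
        S (T f) = 0 := by
      intro S T d e hS hT hk
      by_cases hke : k < e
      · rw [hT.zero k hke f hf, map_zero]
      · obtain ⟨i, rfl⟩ : ∃ i, k = i + e := ⟨k - e, by omega⟩
        exact hS.zero i (by omega) _ (hT.low i f hf)
    simp only [LinearMap.sub_apply, LinearMap.comp_apply]
    rw [key S T d e hS hT hk, key T S e d hT hS (by omega), sub_zero]

/-- `ad(∂_3)^i (∂_{2a+3})` -/
noncomputable def adn : ℕ → ℕ → (HH →ₗ[ℚ] HH)
  | 0, a => der a
  | i + 1, a => (der 0).comp (adn i a) - (adn i a).comp (der 0)

lemma adn_der (i a : ℕ) : ∃ d, IsDer (adn i a) d := by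
  induction i with
  | zero => exact ⟨_, der_der a⟩
  | succ i ih =>
    obtain ⟨d, hd⟩ := ih
    exact ⟨_, (der_der 0).bracket hd⟩

lemma adn_succ (i a : ℕ) (x : HH) : adn (i + 1) a x = der 0 (adn i a x) - adn i a (der 0 x) := rfl

/-- fewer than `s` letters `0` before the first other letter does not occur -/
def NoP (s : ℕ) (x : HH) : Prop :=
  ∀ t, t < s → ∀ a, 1 ≤ a → ∀ m w, x (m, List.replicate t 0 ++ a :: w) = 0

lemma adn_coeff (s a : ℕ) (ha : 1 ≤ a) : ∀ (x : HH), NoP s x → ∀ m w,
    adn s a x (m, w) = (-1) ^ s * x (m, List.replicate s 0 ++ a :: w) := by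
  induction s with
  | zero =>
    intro x _ m w
    change der a x (m, w) = _
    rw [der_apply]
    simp
  | succ s ih =>
    intro x hx m w
    rw [adn_succ, Finsupp.sub_apply, der_apply]
    have h1 : NoP s x := fun t ht => hx t (by omega)
    have h2 : NoP s (der 0 x) := by
      intro t ht b hb n v
      rw [der_apply]
      have := hx (t + 1) (by omega) b hb n v
      rwa [List.replicate_succ] at this
    rw [ih x h1, ih _ h2, der_apply, hx s (by omega) a ha, mul_zero, zero_sub, pow_succ,
      List.replicate_succ, List.cons_append]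
    ring

/-- An element killed by the whole ideal contains only the letter `f_3`. -/
lemma only_zero {x : HH} (h : ∀ i a, 1 ≤ a → adn i a x = 0) : ∀ s, NoP s x := by
  intro s
  induction s with
  | zero => intro t ht; omega
  | succ s ih =>
    intro t ht a ha m w
    by_cases hts : t < s
    · exact ih t hts a ha m w
    · have hts' : t = s := by omega
      subst hts'
      have h1 := adn_coeff t a ha x ih m w
      rw [h t a ha] at h1
      have h2 : (0 : HH) (m, w) = 0 := rfl
      rw [h2] at h1
      exact (mul_eq_zero.1 h1.symm).resolve_left (pow_ne_zero _ (by norm_num))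

lemma word_cases (w : List ℕ) : w = List.replicate w.length 0 ∨
    ∃ t a v, 1 ≤ a ∧ w = List.replicate t 0 ++ a :: v := by
  induction w with
  | nil => left; rfl
  | cons b w ih =>
    by_cases hb : b = 0
    · subst hb
      rcases ih with h | ⟨t, a, v, ha, h⟩
      · left
        rw [List.length_cons, List.replicate_succ, ← h]
      · right
        exact ⟨t + 1, a, v, ha, by rw [List.replicate_succ, List.cons_append, ← h]⟩
    · right
      exact ⟨0, b, w, by omega, rfl⟩

lemma supp_zero {x : HH} (h : ∀ i a, 1 ≤ a → adn i a x = 0) {p : ℕ × List ℕ}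
    (hp : p ∈ x.support) : p.2 = List.replicate p.2.length 0 := by
  rcases word_cases p.2 with h1 | ⟨t, a, v, ha, h1⟩
  · exact h1
  · exfalso
    have h2 := only_zero h (t + 1) t (by omega) a ha p.1 v
    rw [← h1] at h2
    exact Finsupp.mem_support_iff.1 hp h2

/-! ### values of the powers of `f_3` -/

lemma shuf_letters (u v : List ℕ) : ∀ w ∈ shuf u v, ∀ c ∈ w, c ∈ u ∨ c ∈ v := by
  induction u generalizing v with
  | nil =>
    intro w hw c hc
    rw [shuf_nil_left, List.mem_singleton] at hw
    rw [hw] at hc
    exact Or.inr hc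
  | cons a u ihu =>
    induction v with
    | nil =>
      intro w hw c hc
      rw [shuf_nil_right, List.mem_singleton] at hw
      rw [hw] at hc
      exact Or.inl hc
    | cons b v ihv =>
      intro w hw c hc
      rw [shuf_cons, List.mem_append, List.mem_map, List.mem_map] at hw
      rcases hw with ⟨w0, h0, rfl⟩ | ⟨w0, h0, rfl⟩
      · rcases List.mem_cons.1 hc with rfl | hc
        · exact Or.inl List.mem_cons_self
        · rcases ihu _ _ h0 c hc with h | h
          · exact Or.inl (List.mem_cons_of_mem _ h)
          · exact Or.inr h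
      · rcases List.mem_cons.1 hc with rfl | hc
        · exact Or.inr List.mem_cons_self
        · rcases ihv _ h0 c hc with h | h
          · exact Or.inl h
          · exact Or.inr (List.mem_cons_of_mem _ h)

variable {Z : ℕ → Submodule ℚ ℝ} {ψ : HH →ₗ[ℚ] ℝ}

lemma psi_zeros (hψ : IsSurjection Z ψ) (m b : ℕ) :
    ψ (Finsupp.single (m, List.replicate b 0) 1) =
      ψ (Finsupp.single (1, []) 1) ^ m * ψ (Finsupp.single (0, [0]) 1) ^ b /
        (b.factorial : ℝ) := by
  induction b with
  | zero =>
    simp only [List.replicate_zero, pow_zero, Nat.factorial_zero, Nat.cast_one, div_one, mul_one]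
    induction m with
    | zero => rw [hψ.one, pow_zero]
    | succ m ih =>
      have h : Finsupp.single ((m + 1, []) : ℕ × List ℕ) (1 : ℚ) =
          mulH (Finsupp.single (m, []) 1) (Finsupp.single (1, []) 1) := by
        rw [single_mul]
        simp [shuf_nil_left]
      rw [h, hψ.mul, ih, pow_succ]
  | succ b ih =>
    have h1 : mulH (Finsupp.single (m, List.replicate b 0) 1) (Finsupp.single (0, [0]) 1) =
        ((b + 1 : ℕ) : ℚ) • Finsupp.single (m, List.replicate (b + 1) 0) (1 : ℚ) := by
      rw [single_mul]
      simp only [add_zero]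
      have h2 : (shuf (List.replicate b 0) [0]).map
          (fun w => Finsupp.single ((m, w) : ℕ × List ℕ) (1 : ℚ)) =
          (shuf (List.replicate b 0) [0]).map
            fun _ => Finsupp.single ((m, List.replicate (b + 1) 0) : ℕ × List ℕ) (1 : ℚ) := by
        refine List.map_congr_left fun w hw => ?_
        have h3 := (shuf_prod (fun _ => 1) _ _ w hw).2
        have h4 : w = List.replicate (b + 1) 0 := by
          rw [List.eq_replicate_iff]
          refine ⟨by rw [h3]; simp, fun c hc => ?_⟩
          rcases shuf_letters _ _ w hw c hc with h | h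
          · exact List.eq_of_mem_replicate h
          · simpa using h
        rw [h4]
      rw [h2, List.map_const', List.sum_replicate, shuf_length]
      simp only [List.length_replicate, List.length_cons, List.length_nil]
      rw [show (b + (0 + 1)).choose b = b + 1 by simp]
      rw [Nat.cast_smul_eq_nsmul]
    have h5 := congrArg ψ h1
    rw [hψ.mul, map_smul, ih] at h5
    have h6 : ((b + 1 : ℕ) : ℝ) ≠ 0 := by positivity
    have h7 : (b.factorial : ℝ) ≠ 0 := by positivity
    have h8 : (((b + 1 : ℕ) : ℚ) • ψ (Finsupp.single (m, List.replicate (b + 1) 0) (1 : ℚ))) =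
        ((b + 1 : ℕ) : ℝ) * ψ (Finsupp.single (m, List.replicate (b + 1) 0) (1 : ℚ)) := by
      rw [Rat.smul_def]
      simp
    rw [h8] at h5
    rw [Nat.factorial_succ, Nat.cast_mul, pow_succ, eq_div_iff (mul_ne_zero h6 h7)]
    field_simp at h5
    linear_combination -h5

end Pool.Agent.J4.H88.MZ
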